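import Pool.Agent.Helper42.RZ2.Defs

/-! # RZ2: elementary facts -/

set_option autoImplicit false

open MeasureTheory Set Metric Filter Topology
open scoped ENNReal

namespace Pool.Agent.Helper42.RZ2

open Pool.Agent.Helper42.RZ

theorem Fd_eq : Fd = Complex.measurableEquivRealProd ⁻¹' Sq := by
  ext x
  simp only [Fd, Sq, mem_preimage, Set.mem_prod, Complex.measurableEquivRealProd_apply]
  rfl

theorem measurableSet_Sq : MeasurableSet Sq := measurableSet_Ico.prod measurableSet_Ico

theorem measurableSet_Fd : MeasurableSet Fd := by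
  rw [Fd_eq]
  exact Complex.measurableEquivRealProd.measurable measurableSet_Sq

theorem volume_Sq : (volume : Measure (ℝ × ℝ)) Sq = 1 := by
  rw [Sq, Measure.volume_eq_prod, Measure.prod_prod, Real.volume_Ico]
  norm_num

theorem volume_Fd : (volume : Measure ℂ) Fd = 1 := by
  rw [Fd_eq, Complex.volume_preserving_equiv_real_prod.measure_preimage
    measurableSet_Sq.nullMeasurableSet, volume_Sq]

instance : IsProbabilityMeasure tau := ⟨by rw [tau, Measure.restrict_apply_univ, volume_Fd]⟩

theorem measurable_ph (s w : ℝ) : Measurable (ph s w) := by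
  unfold ph K
  exact (measurable_id.pow_const _).mul (by fun_prop)

theorem ph_nonneg {s w r : ℝ} (hr : 0 ≤ r) : 0 ≤ ph s w r :=
  mul_nonneg (Real.rpow_nonneg hr _) (Real.exp_pos _).le

theorem ph_zero {s w : ℝ} (h0 : 0 < s) : ph s w 0 = 0 := by
  rw [ph, K, Real.zero_rpow (by linarith), zero_mul]

theorem norm_emb_sub (x y : ℂ) : ‖emb x - emb y‖ = ‖x - y‖ := by
  rw [EuclideanSpace.norm_eq, Fin.sum_univ_three, Complex.norm_eq_sqrt_sq_add_sq]
  congr 1
  simp [emb]

theorem norm_emb_le {x : ℂ} (hx : x ∈ Fd) : ‖emb x‖ ≤ 1 := by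
  rw [EuclideanSpace.norm_eq, Fin.sum_univ_three, Real.sqrt_le_one]
  obtain ⟨⟨h1, h2⟩, h3, h4⟩ := hx
  simp [emb]
  have h5 : x.re ^ 2 ≤ 1 / 4 := by nlinarith
  have h6 : x.im ^ 2 ≤ 1 / 4 := by nlinarith
  linarith

theorem measurable_emb : Measurable emb := by
  unfold emb
  refine (PiLp.continuous_toLp 2 _).measurable.comp ?_
  refine measurable_pi_lambda _ fun i => ?_
  fin_cases i
  · exact Complex.measurable_re
  · exact Complex.measurable_im
  · exact measurable_const

end Pool.Agent.Helper42.RZ2
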