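import Pool.Agent.Helper42.RZ.Basic

/-!
# MP_e739cf_an, second part: the constant is the infimum of planar periodic energies. Definitions

`ph s w` is the damped Riesz kernel `r ^ (-s) exp (-w r)` (with value `0` at `r = 0`), `RS s w a b x`
is the damped lattice sum over `x + ℤ a + ℤ b` minus the integral of the kernel over the plane
divided by the area of a cell; `GG s x` is its limit as `w → 0` for the square lattice.
-/

set_option autoImplicit false

open MeasureTheory Set Metric Filter Topology
open scoped ENNReal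

namespace Pool.Agent.Helper42.RZ2

open Pool.Agent.Helper42.RZ

/-- the damped kernel; `ph s w 0 = 0` for `s > 0` -/
noncomputable def ph (s w r : ℝ) : ℝ := K s r * Real.exp (-w * r)

/-- a lattice vector -/
noncomputable def lv (a b : ℂ) (k : ℤ × ℤ) : ℂ := (k.1 : ℂ) * a + (k.2 : ℂ) * b

/-- the oriented area of the parallelogram spanned by `a` and `b` -/
noncomputable def dt (a b : ℂ) : ℝ := a.re * b.im - a.im * b.re

/-- the mass of the damped kernel over the plane -/
noncomputable def bk (s w : ℝ) : ℝ := 2 * Real.pi * Real.Gamma (2 - s) * w ^ (s - 2)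

/-- damped lattice sum -/
noncomputable def LS (s w : ℝ) (a b x : ℂ) : ℝ := ∑' k : ℤ × ℤ, ph s w ‖x + lv a b k‖

/-- damped lattice sum minus the background -/
noncomputable def RS (s w : ℝ) (a b x : ℂ) : ℝ := LS s w a b x - bk s w / |dt a b|

/-- `m` points per cell of the lattice spanned by `a` and `b`, distinct modulo the lattice, one
point per unit area -/
def Per (m : ℕ) (a b : ℂ) (y : Fin m → ℂ) : Prop :=
  1 ≤ m ∧ |dt a b| = m ∧ ∀ i j, ∀ k : ℤ × ℤ, y i - y j + lv a b k = 0 → i = j

/-- damped energy per point, background subtracted, of a periodic configuration of density one -/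
noncomputable def AS (s w : ℝ) (a b : ℂ) {m : ℕ} (y : Fin m → ℂ) : ℝ :=
  (m : ℝ)⁻¹ * ∑ i, ∑ j, LS s w a b (y i - y j) - bk s w

/-! ## The unit torus -/

/-- the fundamental domain of the square lattice -/
def Fd : Set ℂ := {x | x.re ∈ Ico (-(1 / 2) : ℝ) (1 / 2) ∧ x.im ∈ Ico (-(1 / 2) : ℝ) (1 / 2)}

/-- Lebesgue measure on the fundamental domain -/
noncomputable def tau : Measure ℂ := (volume : Measure ℂ).restrict Fd

/-- the Riesz kernel of the unit torus -/
noncomputable def GG (s : ℝ) (x : ℂ) : ℝ := limUnder (𝓝[>] (0 : ℝ)) fun w => RS s w 1 Complex.I x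

/-- the unit square centred at the origin -/
def Sq : Set (ℝ × ℝ) := Ico (-(1 / 2)) (1 / 2) ×ˢ Ico (-(1 / 2)) (1 / 2)

/-- embedding of the plane -/
noncomputable def emb (x : ℂ) : E3 := !₂[x.re, x.im, 0]

end Pool.Agent.Helper42.RZ2
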