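import Pool.Agent.Helper42.RZ2.St.R4c
import Pool.Agent.Helper42.RZ2.St.R4d
import Pool.Agent.Helper42.RZ2.St.R10
import Pool.Agent.Helper42.RZ2.St.R12

/-! # RZ2: the constant is the infimum of the periodic energies -/

set_option autoImplicit false

open MeasureTheory Set Metric Filter Topology
open scoped ENNReal

namespace Pool.Agent.Helper42.RZ2

open Pool.Agent.Helper42.RZ Pool.Agent.Helper42.RZ.S15

theorem AS_eq {s w : ℝ} {m : ℕ} {a b : ℂ} {y : Fin m → ℂ} (hY : Per m a b y) :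
    AS s w a b y = (m : ℝ)⁻¹ * ∑ i, ∑ j, RS s w a b (y i - y j) := by
  obtain ⟨hm, hd, -⟩ := hY
  have hm' : (0 : ℝ) < m := by exact_mod_cast hm
  simp only [AS, RS, Finset.sum_sub_distrib, Finset.sum_const, Finset.card_univ, Fintype.card_fin,
    nsmul_eq_mul, hd]
  field_simp

theorem Per.dt_ne {m : ℕ} {a b : ℂ} {y : Fin m → ℂ} (hY : Per m a b y) : dt a b ≠ 0 := by
  obtain ⟨hm, hd, -⟩ := hY
  intro h
  rw [h, abs_zero] at hd
  have : m = 0 := by exact_mod_cast hd.symm
  omega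

theorem AS_tendsto {s : ℝ} (h0 : 0 < s) (h2 : s < 2) {m : ℕ} {a b : ℂ} {y : Fin m → ℂ}
    (hY : Per m a b y) : ∃ E : ℝ, Tendsto (fun w => AS s w a b y) (𝓝[>] 0) (𝓝 E) := by
  choose G hG using fun x : ℂ => RS_tendsto h0 h2 hY.dt_ne x
  refine ⟨(m : ℝ)⁻¹ * ∑ i, ∑ j, G (y i - y j), ?_⟩
  simp only [AS_eq hY]
  exact tendsto_const_nhds.mul (tendsto_finsetSum _ fun i _ => tendsto_finsetSum _ fun j _ =>
    hG _)

/-! ## Scaling -/

theorem ph_scale {s w t r : ℝ} (ht : 0 < t) (hr : 0 ≤ r) :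
    ph s w (t * r) = t ^ (-s) * ph s (w * t) r := by
  rw [ph, ph, K, K, Real.mul_rpow ht.le hr]
  have : -w * (t * r) = -(w * t) * r := by ring
  rw [this]
  ring

theorem LS_scale {s w t : ℝ} (ht : 0 < t) (a b x : ℂ) :
    LS s w (t * a) (t * b) (t * x) = t ^ (-s) * LS s (w * t) a b x := by
  rw [LS, LS, ← tsum_mul_left]
  refine tsum_congr fun k => ?_
  have h : (t : ℂ) * x + lv (t * a) (t * b) k = (t : ℂ) * (x + lv a b k) := by
    rw [lv, lv]; ring
  rw [h, norm_mul, Complex.norm_real, Real.norm_of_nonneg ht.le, ph_scale ht (norm_nonneg _)]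

theorem dt_scale (t : ℝ) (a b : ℂ) : dt (t * a) (t * b) = t ^ 2 * dt a b := by
  simp only [dt, Complex.re_ofReal_mul, Complex.im_ofReal_mul]
  ring

theorem dt_one_I : dt 1 Complex.I = 1 := by simp [dt]

theorem Per_of_torus {n : ℕ} (hn : 1 ≤ n) {z : Fin n → ℂ} (hz : ∀ i, z i ∈ Fd)
    (hinj : Function.Injective z) :
    Per n (Real.sqrt n * 1) (Real.sqrt n * Complex.I) (fun i => Real.sqrt n * z i) := by
  have hn' : (0 : ℝ) < n := by exact_mod_cast hn
  have ht : 0 < Real.sqrt n := Real.sqrt_pos.2 hn'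
  refine ⟨hn, ?_, ?_⟩
  · rw [dt_scale, dt_one_I, mul_one, abs_of_nonneg (sq_nonneg _), Real.sq_sqrt hn'.le]
  · intro i j k h
    have h1 : (Real.sqrt n : ℂ) * (z i - z j + lv 1 Complex.I k) = 0 := by
      rw [← h, lv, lv]; ring
    have h2 : z i - z j + lv 1 Complex.I k = 0 := by
      rcases mul_eq_zero.1 h1 with h3 | h3
      · exact absurd (Complex.ofReal_eq_zero.1 h3) ht.ne'
      · exact h3
    obtain ⟨⟨a1, a2⟩, a3, a4⟩ := hz i
    obtain ⟨⟨b1, b2⟩, b3, b4⟩ := hz j
    have h4 := congrArg Complex.re h2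
    have h5 := congrArg Complex.im h2
    simp only [lv, Complex.add_re, Complex.sub_re, Complex.mul_re, Complex.intCast_re,
      Complex.intCast_im, Complex.I_re, Complex.I_im,
      Complex.zero_re, mul_one, mul_zero, sub_zero, add_zero] at h4
    simp only [lv, Complex.add_im, Complex.sub_im, Complex.mul_im, Complex.intCast_re,
      Complex.intCast_im, Complex.I_re, Complex.I_im,
      Complex.zero_im, mul_one, mul_zero, add_zero, zero_add] at h5
    have k1 : k.1 = 0 := by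
      have e1 : (-1 : ℝ) < k.1 := by linarith
      have e2 : (k.1 : ℝ) < 1 := by linarith
      have e3 : (-1 : ℤ) < k.1 := by exact_mod_cast e1
      have e4 : k.1 < (1 : ℤ) := by exact_mod_cast e2
      omega
    have k2 : k.2 = 0 := by
      have e1 : (-1 : ℝ) < k.2 := by linarith
      have e2 : (k.2 : ℝ) < 1 := by linarith
      have e3 : (-1 : ℤ) < k.2 := by exact_mod_cast e1
      have e4 : k.2 < (1 : ℤ) := by exact_mod_cast e2
      omega
    refine hinj (Complex.ext ?_ ?_)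
    · rw [k1] at h4; push_cast at h4; linarith
    · rw [k2] at h5; push_cast at h5; linarith

theorem AS_torus_tendsto {s : ℝ} (h0 : 0 < s) (h2 : s < 2) {n : ℕ} (hn : 1 ≤ n) {z : Fin n → ℂ}
    (hz : ∀ i, z i ∈ Fd) (hinj : Function.Injective z) :
    Tendsto (fun w => AS s w (Real.sqrt n * 1) (Real.sqrt n * Complex.I)
      (fun i => Real.sqrt n * z i)) (𝓝[>] 0)
      (𝓝 ((∑ p ∈ (Finset.univ : Finset (Fin n)).offDiag, GG s (z p.1 - z p.2) + n * GG s 0) /
        (n : ℝ) ^ (1 + s / 2))) := by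
  classical
  have hn' : (0 : ℝ) < n := by exact_mod_cast hn
  have ht : 0 < Real.sqrt n := Real.sqrt_pos.2 hn'
  have hY := Per_of_torus hn hz hinj
  have hts : Real.sqrt n ^ (-s) = (n : ℝ) ^ (-(s / 2)) := by
    rw [Real.sqrt_eq_rpow, ← Real.rpow_mul hn'.le]
    congr 1; ring
  have hRS : ∀ w : ℝ, 0 < w → ∀ x : ℂ, RS s w (Real.sqrt n * 1) (Real.sqrt n * Complex.I)
      (Real.sqrt n * x) = Real.sqrt n ^ (-s) * RS s (w * Real.sqrt n) 1 Complex.I x := by
    intro w hw x
    rw [RS, RS, LS_scale ht, dt_scale, dt_one_I, mul_one, abs_of_nonneg (sq_nonneg _), abs_one,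
      div_one, mul_sub, bk, bk, Real.mul_rpow hw.le ht.le]
    congr 1
    have h1 : Real.sqrt n ^ (-s) * Real.sqrt n ^ (s - 2) = (Real.sqrt n ^ 2)⁻¹ := by
      rw [← Real.rpow_add ht, ← Real.rpow_natCast (Real.sqrt n) 2, ← Real.rpow_neg ht.le]
      congr 1
      push_cast
      ring
    have h3 : Real.sqrt n ^ (-s) * (2 * Real.pi * Real.Gamma (2 - s) *
        (w ^ (s - 2) * Real.sqrt n ^ (s - 2))) = 2 * Real.pi * Real.Gamma (2 - s) * w ^ (s - 2) *
        (Real.sqrt n ^ (-s) * Real.sqrt n ^ (s - 2)) := by ring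
    rw [h3, h1, div_eq_mul_inv]
  have hw : Tendsto (fun w : ℝ => w * Real.sqrt n) (𝓝[>] 0) (𝓝[>] 0) := by
    refine tendsto_nhdsWithin_of_tendsto_nhds_of_eventually_within _ ?_ ?_
    · have : Tendsto (fun w : ℝ => w * Real.sqrt n) (𝓝 0) (𝓝 (0 * Real.sqrt n)) :=
        tendsto_id.mul tendsto_const_nhds
      rw [zero_mul] at this
      exact this.mono_left nhdsWithin_le_nhds
    · filter_upwards [self_mem_nhdsWithin] with w hw
      exact mul_pos hw ht
  have hlim : Tendsto (fun w : ℝ => (n : ℝ)⁻¹ * ∑ i, ∑ j, Real.sqrt n ^ (-s) *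
      RS s (w * Real.sqrt n) 1 Complex.I (z i - z j)) (𝓝[>] 0)
      (𝓝 ((n : ℝ)⁻¹ * ∑ i, ∑ j, Real.sqrt n ^ (-s) * GG s (z i - z j))) :=
    tendsto_const_nhds.mul (tendsto_finsetSum _ fun i _ => tendsto_finsetSum _ fun j _ =>
      tendsto_const_nhds.mul ((GG_tendsto h0 h2 _).comp hw))
  have hval : (n : ℝ)⁻¹ * ∑ i, ∑ j, Real.sqrt n ^ (-s) * GG s (z i - z j) =
      (∑ p ∈ (Finset.univ : Finset (Fin n)).offDiag, GG s (z p.1 - z p.2) + n * GG s 0) /
        (n : ℝ) ^ (1 + s / 2) := by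
    simp only [← Finset.mul_sum]
    have h5 : ∑ i, ∑ j, GG s (z i - z j) =
        ∑ p ∈ (Finset.univ : Finset (Fin n)).offDiag, GG s (z p.1 - z p.2) + n * GG s 0 := by
      rw [← Finset.sum_product', Finset.univ_product_univ]
      have h6 : (Finset.univ : Finset (Fin n × Fin n)) =
          (Finset.univ : Finset (Fin n)).offDiag ∪ (Finset.univ : Finset (Fin n)).diag := by
        ext p
        simp only [Finset.mem_univ, Finset.mem_union, Finset.mem_offDiag, Finset.mem_diag,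
          true_and, true_iff]
        exact (em (p.1 = p.2)).symm
      rw [h6, Finset.sum_union (Finset.disjoint_diag_offDiag _).symm]
      congr 1
      have h7 : ∀ p ∈ (Finset.univ : Finset (Fin n)).diag, GG s (z p.1 - z p.2) = GG s 0 := by
        intro p hp
        rw [(Finset.mem_diag.1 hp).2, sub_self]
      rw [Finset.sum_congr rfl h7, Finset.sum_const, Finset.diag_card, Finset.card_univ,
        Fintype.card_fin, nsmul_eq_mul]
    rw [h5, hts, Real.rpow_add hn', Real.rpow_one, Real.rpow_neg hn'.le]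
    field_simp
  rw [← hval]
  refine hlim.congr' ?_
  filter_upwards [self_mem_nhdsWithin] with w hw'
  rw [AS_eq hY]
  congr 1
  refine Finset.sum_congr rfl fun i _ => Finset.sum_congr rfl fun j _ => ?_
  rw [← mul_sub, hRS w hw']

/-- the set of energies of the periodic configurations of density one -/
def PE (s : ℝ) : Set ℝ := {E | ∃ (m : ℕ) (a b : ℂ) (y : Fin m → ℂ), Per m a b y ∧
  Tendsto (fun w => AS s w a b y) (𝓝[>] 0) (𝓝 E)}

theorem isGLB {s : ℝ} (h0 : 0 < s) (h2 : s < 2) {c : ℝ} (hc0 : c < 0)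
    (hc : Tendsto (fun N : ℕ => (minE s N - Cc s * (N : ℝ) ^ 2) / (N : ℝ) ^ (1 + s / 2)) atTop
      (𝓝 c)) : IsGLB (PE s) ((4 * Real.pi) ^ (s / 2) * c) := by
  have hπ := Real.pi_pos
  constructor
  · rintro E ⟨m, a, b, y, hY, hE⟩
    refine ge_of_tendsto hE ?_
    filter_upwards [self_mem_nhdsWithin] with w hw
    exact upper_periodic h0 h2 hc hY hw
  · intro B hB
    by_contra hlt
    rw [not_le] at hlt
    set c' : ℝ := (4 * Real.pi) ^ (s / 2) * c with hc'
    have hc'0 : c' < 0 := mul_neg_of_pos_of_neg (by positivity) hc0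
    obtain ⟨e, he1, he2⟩ := exists_between (lt_min hlt hc'0)
    have heB : e < B := he2.trans_le (min_le_left _ _)
    have he0 : e < 0 := he2.trans_le (min_le_right _ _)
    have hnot : ¬ TorusBound s e := fun hT => absurd (lower_torus h0 h2 hc he0 hT) (not_le.2 he1)
    unfold TorusBound at hnot
    push Not at hnot
    obtain ⟨n, z, hz, hinj, hlt2⟩ := hnot
    have hn : 1 ≤ n := by
      by_contra h
      have hn0 : n = 0 := by omega
      subst hn0
      rw [Nat.cast_zero, Real.zero_rpow (by linarith), mul_zero, zero_mul, add_zero] at hlt2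
      simp at hlt2
    have hn' : (0 : ℝ) < n := by exact_mod_cast hn
    have h3 := hB ⟨n, _, _, _, Per_of_torus hn hz hinj, AS_torus_tendsto h0 h2 hn hz hinj⟩
    have h4 : (∑ p ∈ (Finset.univ : Finset (Fin n)).offDiag, GG s (z p.1 - z p.2) + n * GG s 0) /
        (n : ℝ) ^ (1 + s / 2) < e := by
      rw [div_lt_iff₀ (by positivity)]
      exact hlt2
    linarith

end Pool.Agent.Helper42.RZ2
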