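import Pool.Agent.Helper42.RZ2.St.R2
import Pool.Agent.Helper42.RZ2.St.R4d
import Pool.Agent.Helper42.RZ2.St.R5
import Pool.Agent.Helper42.RZ2.St.R6
import Pool.Agent.Helper42.RZ2.St.R7
import Pool.Agent.Helper42.RZ2.St.R11b
import Pool.Agent.Helper42.RZ.S11

/-! # RZ2-R11: pasting pieces of spherical configurations on the torus, `M` planes -/

set_option autoImplicit false

open MeasureTheory Set Metric Filter Topology
open scoped ENNReal

namespace Pool.Agent.Helper42.RZ2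

open Pool.Agent.Helper42.RZ Pool.Agent.Helper42.RZ.S11

/-- the energy of `n` distinct points of the unit torus is at least `e n ^ (1 + s / 2)` -/
def TorusBound (s e : ℝ) : Prop := ∀ (n : ℕ) (z : Fin n → ℂ), (∀ i, z i ∈ Fd) →
  Function.Injective z → e * (n : ℝ) ^ (1 + s / 2) ≤
    ∑ p ∈ (Finset.univ : Finset (Fin n)).offDiag, GG s (z p.1 - z p.2) + n * GG s 0

end Pool.Agent.Helper42.RZ2

namespace Pool.Agent.Helper42.RZ2.R11

open Pool.Agent.Helper42.RZ Pool.Agent.Helper42.RZ.S11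

/-! ## Averages over the planes: plane points -/

theorem W_avg {s : ℝ} (h0 : 0 < s) {Γ : Type} [MeasurableSpace Γ] (γ : Measure Γ)
    [IsProbabilityMeasure γ] (a a' : Γ → ℂ) (ha : Measurable a) (ha' : Measurable a')
    (T : Set Γ) (hT : MeasurableSet T) (hu : ∀ θ ∈ T, a θ ∈ Fd ∧ a' θ ∈ Fd) {d : ℝ}
    (hd : 0 < d) (hda : ∀ θ ∈ T, d ≤ ‖a θ - a' θ‖) (M : ℕ) :
    Integrable (fun ω : Fin M → E3 × ℝ =>
      ∫ θ, (T ∩ {θ | Same ω (emb (a θ)) (emb (a' θ))}).indicator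
      (fun θ => K s ‖a θ - a' θ‖) θ ∂γ) (Pl M) ∧
    ∫ ω : Fin M → E3 × ℝ, ∫ θ, (T ∩ {θ | Same ω (emb (a θ)) (emb (a' θ))}).indicator
      (fun θ => K s ‖a θ - a' θ‖) θ ∂γ ∂(Pl M) ≤ γ.real T * (K s d * (1 - d / 4) ^ M) := by
  classical
  let F : (Fin M → E3 × ℝ) × Γ → ℝ := fun q =>
    {q : (Fin M → E3 × ℝ) × Γ | q.2 ∈ T ∧ Same q.1 (emb (a q.2)) (emb (a' q.2))}.indicator
      (fun q => K s ‖a q.2 - a' q.2‖) q
  have hset : MeasurableSet {q : (Fin M → E3 × ℝ) × Γ | q.2 ∈ T ∧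
      Same q.1 (emb (a q.2)) (emb (a' q.2))} :=
    (measurable_snd hT).inter
      (measurableSet_same measurable_fst (measurable_emb.comp (ha.comp measurable_snd))
        (measurable_emb.comp (ha'.comp measurable_snd)))
  have hKm : Measurable fun q : (Fin M → E3 × ℝ) × Γ => K s ‖a q.2 - a' q.2‖ :=
    (measurable_K s).comp ((ha.comp measurable_snd).sub (ha'.comp measurable_snd)).norm
  have hFm : Measurable F := hKm.indicator hset
  have hF0 : ∀ q, 0 ≤ F q := fun q => Set.indicator_nonneg (fun _ _ => K_nonneg (norm_nonneg _)) q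
  have hFb : ∀ q, F q ≤ K s d := by
    intro q
    by_cases h : q ∈ {q : (Fin M → E3 × ℝ) × Γ | q.2 ∈ T ∧
        Same q.1 (emb (a q.2)) (emb (a' q.2))}
    · simp only [F, Set.indicator_of_mem h]
      exact K_anti h0 hd (hda _ h.1)
    · simp only [F, Set.indicator_of_notMem h]
      exact K_nonneg hd.le
  have hFi : Integrable F ((Pl M).prod γ) := by
    refine Integrable.of_bound hFm.aestronglyMeasurable (K s d) (Eventually.of_forall fun q => ?_)
    rw [Real.norm_of_nonneg (hF0 q)]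
    exact hFb q
  have hFeq : ∀ ω : Fin M → E3 × ℝ, ∀ θ, (T ∩ {θ | Same ω (emb (a θ)) (emb (a' θ))}).indicator
      (fun θ => K s ‖a θ - a' θ‖) θ = F (ω, θ) := by
    intro ω θ
    exact ind_eq Iff.rfl rfl
  simp only [hFeq]
  refine ⟨hFi.integral_prod_left, ?_⟩
  have hsw := integral_integral_swap (μ := Pl M) (ν := γ) (f := fun ω θ => F (ω, θ)) hFi
  rw [hsw]
  have hin : ∀ θ, ∫ ω, F (ω, θ) ∂(Pl M) ≤ T.indicator (fun _ => K s d * (1 - d / 4) ^ M) θ := by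
    intro θ
    by_cases h : θ ∈ T
    · rw [Set.indicator_of_mem h]
      obtain ⟨h1, h2⟩ := hu θ h
      have h3 : ∀ ω : Fin M → E3 × ℝ, F (ω, θ) =
          {ω : Fin M → E3 × ℝ | ∀ m, emb (a θ) ∈ hs (ω m) ↔ emb (a' θ) ∈ hs (ω m)}.indicator
            (fun _ => K s ‖a θ - a' θ‖) ω := by
        intro ω
        exact ind_eq ⟨fun hh => hh.2, fun hh => ⟨h, hh⟩⟩ rfl
      have hms : MeasurableSet {ω : Fin M → E3 × ℝ | ∀ m, emb (a θ) ∈ hs (ω m) ↔
          emb (a' θ) ∈ hs (ω m)} :=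
        measurableSet_same measurable_id measurable_const measurable_const
      simp only [h3]
      rw [integral_indicator_const _ hms, planes_ball (norm_emb_le h1) (norm_emb_le h2),
        smul_eq_mul, mul_comm, norm_emb_sub]
      refine anti h0 M hd (hda θ h) ?_
      rw [← norm_emb_sub]
      calc ‖emb (a θ) - emb (a' θ)‖ ≤ ‖emb (a θ)‖ + ‖emb (a' θ)‖ := norm_sub_le _ _
        _ ≤ 1 + 1 := add_le_add (norm_emb_le h1) (norm_emb_le h2)
        _ ≤ 4 := by norm_num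
    · rw [Set.indicator_of_notMem h]
      have h3 : ∀ ω : Fin M → E3 × ℝ, F (ω, θ) = 0 := fun ω =>
        Set.indicator_of_notMem (fun hh => h hh.1) _
      simp [h3]
  calc ∫ θ, ∫ ω, F (ω, θ) ∂(Pl M) ∂γ ≤
      ∫ θ, T.indicator (fun _ => K s d * (1 - d / 4) ^ M) θ ∂γ := by
        refine integral_mono hFi.integral_prod_right ?_ hin
        exact (integrable_const _).indicator hT
    _ = γ.real T * (K s d * (1 - d / 4) ^ M) := by
        rw [integral_indicator_const _ hT, smul_eq_mul]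

/-! ## The background on the torus -/

/-- the kernel with `M` planes -/
theorem int_KM {s : ℝ} (h0 : 0 < s) (h2 : s < 2) (M : ℕ) {x : ℂ} (hx : x ∈ Fd) :
    Integrable (fun z : ℂ => K s ‖x - z‖ * (1 - ‖x - z‖ / 4) ^ M) tau := by
  have h1 := (integral_ball h0 h2 (show (0 : ℝ) < 4 by norm_num) M x).1
  refine h1.mono_set ?_
  intro z hz
  obtain ⟨⟨h3, h4⟩, h5, h6⟩ := hx
  obtain ⟨⟨h7, h8⟩, h9, h10⟩ := hz
  change ‖x - z‖ < 4
  have h11 : ‖x - z‖ ≤ |(x - z).re| + |(x - z).im| := Complex.norm_le_abs_re_add_abs_im _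
  have h12 : |(x - z).re| ≤ 1 := by
    rw [Complex.sub_re, abs_le]; constructor <;> linarith
  have h13 : |(x - z).im| ≤ 1 := by
    rw [Complex.sub_im, abs_le]; constructor <;> linarith
  linarith

theorem ae_tau : ∀ᵐ x ∂tau, x ∈ Fd := by
  rw [tau]
  exact ae_restrict_mem measurableSet_Fd

theorem int_K {s : ℝ} (h0 : 0 < s) (h2 : s < 2) :
    Integrable (fun q : ℂ × ℂ => K s ‖q.1 - q.2‖) (tau.prod tau) := by
  have hm : Measurable (fun q : ℂ × ℂ => K s ‖q.1 - q.2‖) :=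
    (measurable_K s).comp (measurable_fst.sub measurable_snd).norm
  obtain ⟨C, hC, hlo, hhi⟩ := GG_bounds h0 h2
  rw [integrable_prod_iff hm.aestronglyMeasurable]
  constructor
  · filter_upwards [ae_tau] with x hx
    have := int_KM h0 h2 0 hx
    simpa using this
  · have hb : ∀ᵐ x ∂tau, ‖∫ z, ‖K s ‖x - z‖‖ ∂tau‖ ≤
        4 * Real.pi * ∫ r in (0 : ℝ)..4, K s r * (1 - r / 4) ^ 0 * (r / 2) := by
      filter_upwards [ae_tau] with x hx
      have h1 := integral_ball h0 h2 (show (0 : ℝ) < 4 by norm_num) 0 x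
      rw [Real.norm_of_nonneg (integral_nonneg fun z => norm_nonneg _), ← h1.2]
      have h3 : ∀ z : ℂ, ‖K s ‖x - z‖‖ = K s ‖x - z‖ * (1 - ‖x - z‖ / 4) ^ 0 := fun z => by
        rw [pow_zero, mul_one, Real.norm_of_nonneg (K_nonneg (norm_nonneg _))]
      simp only [h3]
      rw [tau]
      refine setIntegral_mono_set h1.1 ?_ ?_
      · refine Eventually.of_forall fun z => ?_
        simp only [pow_zero, mul_one, Pi.zero_apply]
        exact K_nonneg (norm_nonneg _)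
      · refine (Eventually.of_forall fun z hz => ?_)
        obtain ⟨⟨h3, h4⟩, h5, h6⟩ := hx
        obtain ⟨⟨h7, h8⟩, h9, h10⟩ := hz
        change ‖x - z‖ < 4
        have h11 : ‖x - z‖ ≤ |(x - z).re| + |(x - z).im| := Complex.norm_le_abs_re_add_abs_im _
        have h12 : |(x - z).re| ≤ 1 := by
          rw [Complex.sub_re, abs_le]; constructor <;> linarith only [h3, h8, h4, h7]
        have h13 : |(x - z).im| ≤ 1 := by
          rw [Complex.sub_im, abs_le]; constructor <;> linarith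
        linarith only [h11, h12, h13]
    refine Integrable.of_bound ?_ _ hb
    exact (hm.norm.stronglyMeasurable.integral_prod_right').aestronglyMeasurable

theorem U_low {s : ℝ} (h0 : 0 < s) (h2 : s < 2) {P I : Set ℂ} (hP : MeasurableSet P)
    (hI : MeasurableSet I) (hIP : I ⊆ P) {ρ : ℝ} (hρ : ∀ x ∈ I, ∀ y, ‖x - y‖ < ρ → y ∈ P) {M : ℕ}
    (ω : Fin M → E3 × ℝ) :
    ∫ q, {q : ℂ × ℂ | q.1 ∈ I ∧ ‖q.1 - q.2‖ < ρ ∧
      Same ω (emb q.1) (emb q.2)}.indicator (fun q => K s ‖q.1 - q.2‖) q ∂(tau.prod tau) ≤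
    ∑ e : Fin M → Bool, ∫ x in P ∩ emb ⁻¹' cell ω e, ∫ z in P ∩ emb ⁻¹' cell ω e,
      K s ‖x - z‖ ∂tau ∂tau := by
  classical
  have hm : ∀ e : Fin M → Bool, MeasurableSet (P ∩ emb ⁻¹' cell ω e) := fun e =>
    hP.inter (measurable_emb (measurableSet_cell ω e))
  have h1 : ∀ e : Fin M → Bool,
      ∫ x in P ∩ emb ⁻¹' cell ω e, ∫ z in P ∩ emb ⁻¹' cell ω e, K s ‖x - z‖ ∂tau ∂tau =
      ∫ q, ((P ∩ emb ⁻¹' cell ω e) ×ˢ (P ∩ emb ⁻¹' cell ω e)).indicator
        (fun q : ℂ × ℂ => K s ‖q.1 - q.2‖) q ∂(tau.prod tau) := by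
    intro e
    rw [integral_indicator ((hm e).prod (hm e)),
      setIntegral_prod (fun q : ℂ × ℂ => K s ‖q.1 - q.2‖) (int_K h0 h2).integrableOn]
  simp only [h1]
  rw [← integral_finsetSum]
  swap
  · intro e _
    exact (int_K h0 h2).indicator ((hm e).prod (hm e))
  have hsum : ∀ q : ℂ × ℂ, ∑ e : Fin M → Bool,
      ((P ∩ emb ⁻¹' cell ω e) ×ˢ (P ∩ emb ⁻¹' cell ω e)).indicator
        (fun q : ℂ × ℂ => K s ‖q.1 - q.2‖) q =
      {q : ℂ × ℂ | (q.1 ∈ P ∧ q.2 ∈ P) ∧ Same ω (emb q.1) (emb q.2)}.indicator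
        (fun q => K s ‖q.1 - q.2‖) q := by
    intro q
    refine sum_ind (ω := ω) _ _ _ q (emb q.1) (emb q.2) (q.1 ∈ P ∧ q.2 ∈ P) (fun e => ?_) Iff.rfl
    simp only [mem_prod, mem_inter_iff, mem_preimage]
    tauto
  simp only [hsum]
  have hsame : MeasurableSet {q : ℂ × ℂ | Same ω (emb q.1) (emb q.2)} :=
    measurableSet_same (f := fun _ : ℂ × ℂ => ω) measurable_const
      (measurable_emb.comp measurable_fst) (measurable_emb.comp measurable_snd)
  have hd : MeasurableSet {q : ℂ × ℂ | ‖q.1 - q.2‖ < ρ} :=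
    measurableSet_lt (measurable_fst.sub measurable_snd).norm measurable_const
  refine integral_mono ?_ ?_ ?_
  · refine (int_K h0 h2).indicator ?_
    exact (measurable_fst hI).inter (hd.inter hsame)
  · refine (int_K h0 h2).indicator ?_
    exact ((measurable_fst hP).inter (measurable_snd hP)).inter hsame
  · intro q
    by_cases h : q ∈ {q : ℂ × ℂ | q.1 ∈ I ∧ ‖q.1 - q.2‖ < ρ ∧ Same ω (emb q.1) (emb q.2)}
    · simp only
      rw [Set.indicator_of_mem h, Set.indicator_of_mem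
        (show q ∈ {q : ℂ × ℂ | (q.1 ∈ P ∧ q.2 ∈ P) ∧ Same ω (emb q.1) (emb q.2)} from
          ⟨⟨hIP h.1, hρ _ h.1 _ h.2.1⟩, h.2.2⟩)]
    · simp only
      rw [Set.indicator_of_notMem h]
      exact Set.indicator_nonneg (fun _ _ => K_nonneg (norm_nonneg _)) q

theorem U_avg {s : ℝ} (h0 : 0 < s) (h2 : s < 2) (I : Set ℂ) (hI : MeasurableSet I)
    {ρ : ℝ} (hρ0 : 0 < ρ) (hρF : ∀ x ∈ I, ∀ y, ‖x - y‖ < ρ → y ∈ Fd) (M : ℕ) :
    Integrable (fun ω : Fin M → E3 × ℝ => ∫ q, {q : ℂ × ℂ | q.1 ∈ I ∧ ‖q.1 - q.2‖ < ρ ∧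
      Same ω (emb q.1) (emb q.2)}.indicator (fun q => K s ‖q.1 - q.2‖) q ∂(tau.prod tau)) (Pl M) ∧
    ∫ ω : Fin M → E3 × ℝ, ∫ q, {q : ℂ × ℂ | q.1 ∈ I ∧ ‖q.1 - q.2‖ < ρ ∧
      Same ω (emb q.1) (emb q.2)}.indicator (fun q => K s ‖q.1 - q.2‖) q ∂(tau.prod tau) ∂(Pl M) =
      tau.real I *
        (4 * Real.pi * ∫ r in (0 : ℝ)..ρ, K s r * (1 - r / 4) ^ M * (r / 2)) := by
  classical
  let S : Set ((Fin M → E3 × ℝ) × (ℂ × ℂ)) :=
    {q | q.2.1 ∈ I ∧ ‖q.2.1 - q.2.2‖ < ρ ∧ Same q.1 (emb q.2.1) (emb q.2.2)}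
  let F : (Fin M → E3 × ℝ) × (ℂ × ℂ) → ℝ := fun q =>
    S.indicator (fun q => K s ‖q.2.1 - q.2.2‖) q
  have hm1 : Measurable fun q : (Fin M → E3 × ℝ) × (ℂ × ℂ) => q.2.1 :=
    measurable_fst.comp measurable_snd
  have hm2 : Measurable fun q : (Fin M → E3 × ℝ) × (ℂ × ℂ) => q.2.2 :=
    measurable_snd.comp measurable_snd
  have hset : MeasurableSet S :=
    (hm1 hI).inter ((measurableSet_lt (hm1.sub hm2).norm measurable_const).inter
      (measurableSet_same measurable_fst (measurable_emb.comp hm1) (measurable_emb.comp hm2)))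
  have hKm : Measurable fun q : (Fin M → E3 × ℝ) × (ℂ × ℂ) => K s ‖q.2.1 - q.2.2‖ :=
    (measurable_K s).comp (hm1.sub hm2).norm
  have hFm : Measurable F := hKm.indicator hset
  have hKi : Integrable (fun q : (Fin M → E3 × ℝ) × (ℂ × ℂ) => K s ‖q.2.1 - q.2.2‖)
      ((Pl M).prod (tau.prod tau)) := (int_K h0 h2).comp_snd (Pl M)
  have hFi : Integrable F ((Pl M).prod (tau.prod tau)) := hKi.indicator hset
  have hFeq : ∀ ω : Fin M → E3 × ℝ, ∀ q, {q : ℂ × ℂ | q.1 ∈ I ∧ ‖q.1 - q.2‖ < ρ ∧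
      Same ω (emb q.1) (emb q.2)}.indicator (fun q => K s ‖q.1 - q.2‖) q = F (ω, q) := by
    intro ω θ
    exact ind_eq Iff.rfl rfl
  simp only [hFeq]
  refine ⟨hFi.integral_prod_left, ?_⟩
  have hsw := integral_integral_swap (μ := Pl M) (ν := tau.prod tau)
    (f := fun ω q => F (ω, q)) hFi
  rw [hsw]
  set k : ℝ → ℝ := fun r => (Iio ρ).indicator (fun r => K s r * (1 - r / 4) ^ M) r with hk
  have hin : ∀ q : ℂ × ℂ, q.1 ∈ Fd → q.2 ∈ Fd → ∫ ω, F (ω, q) ∂(Pl M) =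
      I.indicator (fun _ => 1) q.1 * k ‖q.1 - q.2‖ := by
    intro q h1 h3
    by_cases h : q.1 ∈ I ∧ ‖q.1 - q.2‖ < ρ
    · rw [Set.indicator_of_mem h.1, one_mul, hk]
      simp only
      rw [Set.indicator_of_mem (show ‖q.1 - q.2‖ ∈ Iio ρ from h.2)]
      have h3' : ∀ ω : Fin M → E3 × ℝ, F (ω, q) =
          {ω : Fin M → E3 × ℝ | ∀ m, emb q.1 ∈ hs (ω m) ↔ emb q.2 ∈ hs (ω m)}.indicator
            (fun _ => K s ‖q.1 - q.2‖) ω := by
        intro ω
        exact ind_eq ⟨fun hh => hh.2.2, fun hh => ⟨h.1, h.2, hh⟩⟩ rfl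
      have hms : MeasurableSet {ω : Fin M → E3 × ℝ | ∀ m, emb q.1 ∈ hs (ω m) ↔
          emb q.2 ∈ hs (ω m)} :=
        measurableSet_same measurable_id measurable_const measurable_const
      simp only [h3']
      rw [integral_indicator_const _ hms, planes_ball (norm_emb_le h1) (norm_emb_le h3),
        smul_eq_mul, mul_comm, norm_emb_sub]
    · have h3' : ∀ ω : Fin M → E3 × ℝ, F (ω, q) = 0 := fun ω =>
        Set.indicator_of_notMem (fun hh => h ⟨hh.1, hh.2.1⟩) _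
      simp only [h3', integral_zero]
      by_cases h4 : q.1 ∈ I
      · have h5 : ‖q.1 - q.2‖ ∉ Iio ρ := fun h5 => h ⟨h4, h5⟩
        rw [hk]
        simp only
        rw [Set.indicator_of_notMem h5, mul_zero]
      · rw [Set.indicator_of_notMem h4, zero_mul]
  have hae1 : ∀ᵐ q : ℂ × ℂ ∂(tau.prod tau), q.1 ∈ Fd :=
    Measure.quasiMeasurePreserving_fst.ae ae_tau
  have hae2 : ∀ᵐ q : ℂ × ℂ ∂(tau.prod tau), q.2 ∈ Fd :=
    Measure.quasiMeasurePreserving_snd.ae ae_tau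
  have hae : (fun q : ℂ × ℂ => ∫ ω, F (ω, q) ∂(Pl M)) =ᵐ[tau.prod tau]
      fun q => I.indicator (fun _ => 1) q.1 * k ‖q.1 - q.2‖ := by
    filter_upwards [hae1, hae2] with q h1 h3 using hin q h1 h3
  have hint : Integrable (fun q : ℂ × ℂ => I.indicator (fun _ => (1 : ℝ)) q.1 *
      k ‖q.1 - q.2‖) (tau.prod tau) := hFi.integral_prod_right.congr hae
  rw [integral_congr_ae hae, integral_prod _ hint]
  set B : ℝ := 4 * Real.pi * ∫ r in (0 : ℝ)..ρ, K s r * (1 - r / 4) ^ M * (r / 2) with hB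
  have h4 : ∀ x, ∫ z, I.indicator (fun _ => (1 : ℝ)) x * k ‖x - z‖ ∂tau =
      I.indicator (fun _ => B) x := by
    intro x
    rw [integral_const_mul]
    by_cases h : x ∈ I
    · rw [Set.indicator_of_mem h, Set.indicator_of_mem h, one_mul, hB,
        ← (integral_ball h0 h2 hρ0 M x).2, tau]
      have hms : MeasurableSet {z : ℂ | ‖x - z‖ < ρ} :=
        measurableSet_lt (measurable_const.sub measurable_id).norm measurable_const
      have h5 : ∀ z : ℂ, k ‖x - z‖ = {z : ℂ | ‖x - z‖ < ρ}.indicator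
          (fun z => K s ‖x - z‖ * (1 - ‖x - z‖ / 4) ^ M) z := fun z => ind_eq Iff.rfl rfl
      simp only [h5]
      have h6 : Fd ∩ {z : ℂ | ‖x - z‖ < ρ} = {z : ℂ | ‖x - z‖ < ρ} :=
        inter_eq_self_of_subset_right fun z hz => hρF x h z hz
      rw [setIntegral_indicator hms, h6]
    · rw [Set.indicator_of_notMem h, Set.indicator_of_notMem h, zero_mul]
  simp only [h4]
  rw [integral_indicator_const _ hI, smul_eq_mul]

/-! ## The nonnegative kernel -/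

/-- the kernel of the torus plus a constant, cut off outside the fundamental domain -/
noncomputable def kB (s B : ℝ) (x z : ℂ) : ℝ :=
  (Fd ×ˢ Fd).indicator (fun q : ℂ × ℂ => GG s (q.1 - q.2) + B) (x, z)

theorem kB_eq {s B : ℝ} {x z : ℂ} (hx : x ∈ Fd) (hz : z ∈ Fd) : kB s B x z = GG s (x - z) + B :=
  Set.indicator_of_mem (show (x, z) ∈ Fd ×ˢ Fd from ⟨hx, hz⟩) _

theorem sub_le_one {x z : ℂ} (hx : x ∈ Fd) (hz : z ∈ Fd) :
    |(x - z).re| ≤ 1 ∧ |(x - z).im| ≤ 1 := by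
  obtain ⟨⟨h3, h4⟩, h5, h6⟩ := hx
  obtain ⟨⟨h7, h8⟩, h9, h10⟩ := hz
  rw [Complex.sub_re, Complex.sub_im, abs_le, abs_le]
  refine ⟨⟨?_, ?_⟩, ?_, ?_⟩ <;> linarith

theorem kB_nonneg {s B C : ℝ} (hlo : ∀ x : ℂ, |x.re| ≤ 1 → |x.im| ≤ 1 → -C ≤ GG s x) (hB : C ≤ B)
    (x z : ℂ) : 0 ≤ kB s B x z := by
  refine Set.indicator_nonneg (fun q hq => ?_) _
  obtain ⟨h1, h2⟩ := sub_le_one hq.1 hq.2
  linarith [hlo _ h1 h2]

theorem measurable_kB {s : ℝ} (h0 : 0 < s) (h2 : s < 2) (B : ℝ) :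
    Measurable fun q : ℂ × ℂ => kB s B q.1 q.2 := by
  have : (fun q : ℂ × ℂ => kB s B q.1 q.2) =
      (Fd ×ˢ Fd).indicator fun q : ℂ × ℂ => GG s (q.1 - q.2) + B := rfl
  rw [this]
  refine Measurable.indicator ?_ (measurableSet_Fd.prod measurableSet_Fd)
  exact ((measurable_GG h0 h2).comp (measurable_fst.sub measurable_snd)).add_const _

theorem kB_ae {s B : ℝ} : (fun q : ℂ × ℂ => kB s B q.1 q.2) =ᵐ[tau.prod tau]
    fun q => GG s (q.1 - q.2) + B := by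
  have hae1 : ∀ᵐ q : ℂ × ℂ ∂(tau.prod tau), q.1 ∈ Fd :=
    Measure.quasiMeasurePreserving_fst.ae ae_tau
  have hae2 : ∀ᵐ q : ℂ × ℂ ∂(tau.prod tau), q.2 ∈ Fd :=
    Measure.quasiMeasurePreserving_snd.ae ae_tau
  filter_upwards [hae1, hae2] with q h1 h3 using kB_eq h1 h3

theorem integrable_kB {s : ℝ} (h0 : 0 < s) (h2 : s < 2) (B : ℝ) :
    Integrable (fun q : ℂ × ℂ => kB s B q.1 q.2) (tau.prod tau) :=
  ((GG_integrable h0 h2).add (integrable_const B)).congr kB_ae.symm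

theorem integral_kB {s : ℝ} (h0 : 0 < s) (h2 : s < 2) (B : ℝ) :
    ∫ q : ℂ × ℂ, kB s B q.1 q.2 ∂(tau.prod tau) = B := by
  rw [integral_congr_ae kB_ae, integral_add (GG_integrable h0 h2) (integrable_const B),
    GG_mean h0 h2, integral_const, probReal_univ, one_smul, zero_add]

/-! ## The lower bound for the torus energy is affine in the number of points -/

theorem affine_lb {s e B G₀ : ℝ} (h0 : 0 < s) (h2 : s < 2) (he : e < 0) (hB : -e ≤ B)
    {N₁ : ℕ} (hN₁ : 1 ≤ N₁) (n : ℕ) :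
    (e * (N₁ : ℝ) ^ (1 + s / 2) * (1 - (1 + s / 2) / 2) -
      (B + e * ((1 + s / 2) / 2) * ((N₁ : ℝ) ^ (1 + s / 2) / (N₁ : ℝ) ^ 2)) * (N₁ : ℝ) ^ 2) +
      (2 * (B + e * ((1 + s / 2) / 2) * ((N₁ : ℝ) ^ (1 + s / 2) / (N₁ : ℝ) ^ 2)) * N₁ -
        (B + G₀)) * n ≤
      e * (n : ℝ) ^ (1 + s / 2) - n * G₀ + B * ((n : ℝ) * n - n) := by
  have hN : (0 : ℝ) < N₁ := by exact_mod_cast hN₁
  have hN1 : (1 : ℝ) ≤ N₁ := by exact_mod_cast hN₁
  have hn : (0 : ℝ) ≤ n := Nat.cast_nonneg n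
  set p : ℝ := 1 + s / 2 with hp
  set L : ℝ := (N₁ : ℝ) ^ p / (N₁ : ℝ) ^ 2 with hL
  have hL0 : 0 ≤ L := by positivity
  have hL1 : L ≤ 1 := by
    rw [hL, div_le_one (by positivity), ← Real.rpow_natCast (N₁ : ℝ) 2]
    refine Real.rpow_le_rpow_of_exponent_le hN1 ?_
    push_cast
    linarith
  have hLN : L * (N₁ : ℝ) ^ 2 = (N₁ : ℝ) ^ p := by rw [hL]; field_simp
  -- concavity
  have hconc : (n : ℝ) ^ p ≤ (N₁ : ℝ) ^ p + p / 2 * L * ((n : ℝ) ^ 2 - (N₁ : ℝ) ^ 2) := by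
    have h3 := rpow_one_add_le_one_add_mul_self (s := ((n : ℝ) / N₁) ^ 2 - 1) (p := p / 2)
      (by linarith [sq_nonneg ((n : ℝ) / N₁)]) (by positivity) (by linarith)
    have h4 : (1 + (((n : ℝ) / N₁) ^ 2 - 1)) ^ (p / 2) = (n : ℝ) ^ p / (N₁ : ℝ) ^ p := by
      rw [add_sub_cancel, ← Real.rpow_natCast ((n : ℝ) / N₁) 2, ← Real.rpow_mul (by positivity),
        ← Real.div_rpow hn hN.le]
      congr 1
      push_cast
      ring
    rw [h4, div_le_iff₀ (by positivity)] at h3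
    refine h3.trans (le_of_eq ?_)
    rw [← hLN]
    field_simp
  have h5 : e * ((N₁ : ℝ) ^ p + p / 2 * L * ((n : ℝ) ^ 2 - (N₁ : ℝ) ^ 2)) ≤ e * (n : ℝ) ^ p :=
    mul_le_mul_of_nonpos_left hconc he.le
  have hκ : 0 ≤ B + e * (p / 2) * L := by
    have h6 : p / 2 * L ≤ 1 := by
      have : p / 2 ≤ 1 := by linarith only [h2, hp]
      calc p / 2 * L ≤ 1 * 1 := mul_le_mul this hL1 hL0 zero_le_one
        _ = 1 := one_mul 1
    nlinarith only [hB, he, h6]
  have h7 := mul_nonneg hκ (sq_nonneg ((n : ℝ) - N₁))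
  have h8 : e * ((N₁ : ℝ) ^ p + p / 2 * L * ((n : ℝ) ^ 2 - (N₁ : ℝ) ^ 2)) =
      e * (N₁ : ℝ) ^ p - e * (p / 2) * (L * (N₁ : ℝ) ^ 2) + e * (p / 2) * L * (n : ℝ) ^ 2 := by
    ring
  rw [h8, hLN] at h5
  linarith only [h5, h7]

/-! ## One configuration of the planes -/

theorem offDiag_fst_le {n : ℕ} (f : Fin n → ℝ) (hf : ∀ i, 0 ≤ f i) :
    ∑ p ∈ (Finset.univ : Finset (Fin n)).offDiag, f p.1 ≤ n * ∑ i, f i := by
  classical
  calc ∑ p ∈ (Finset.univ : Finset (Fin n)).offDiag, f p.1 ≤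
      ∑ p ∈ (Finset.univ : Finset (Fin n)) ×ˢ (Finset.univ : Finset (Fin n)), f p.1 := by
        refine Finset.sum_le_sum_of_subset_of_nonneg ?_ fun p _ _ => hf _
        intro p hp
        simp
    _ = n * ∑ i, f i := by
        rw [Finset.sum_product]
        simp only [Finset.sum_const, Finset.card_univ, Fintype.card_fin, nsmul_eq_mul]
        rw [Finset.mul_sum]

theorem Pr_fst {Γ : Type} [MeasurableSpace Γ] (γ : Measure Γ) [IsProbabilityMeasure γ]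
    {g : Γ → E3 ≃ₗᵢ[ℝ] E3} (hg : ∀ x, Measurable fun θ => g θ x)
    (hgs : ∀ x, ‖x‖ = 1 → Measure.map (fun θ => g θ x) γ = sig) {x : E3} (hx : ‖x‖ = 1)
    {B : Set E3} (hB : MeasurableSet B) :
    (γ.prod tau).real {ω | g ω.1 x ∈ B} = sig.real B := by
  have h := (measurePreserving_fst (μ := γ) (ν := tau)).measure_preimage
    ((hg x hB).nullMeasurableSet)
  rw [Measure.real, Measure.real, ← hgs x hx, Measure.map_apply (hg x) hB, ← h]
  rfl

theorem Pr_snd {Γ : Type} [MeasurableSpace Γ] (γ : Measure Γ) [IsProbabilityMeasure γ]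
    {B : Set ℂ} (hB : MeasurableSet B) :
    (γ.prod tau).real {ω | ω.2 ∈ B} = tau.real B := by
  have h := (measurePreserving_snd (μ := γ) (ν := tau)).measure_preimage hB.nullMeasurableSet
  rw [Measure.real, Measure.real, ← h]
  rfl

theorem pointwise {s : ℝ} (h0 : 0 < s) (h2 : s < 2) {e : ℝ} (he : e < 0) (hT : TorusBound s e)
    {C₀ : ℝ} (hC₀ : 0 < C₀) (hlo : ∀ x : ℂ, |x.re| ≤ 1 → |x.im| ≤ 1 → -C₀ ≤ GG s x)
    (hnear : ∀ x : ℂ, |x.re| ≤ 1 / 2 → |x.im| ≤ 1 / 2 → |GG s x - K s ‖x‖| ≤ C₀)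
    {b ρ : ℝ} (hb : 0 < b) {A : ℝ}
    {N₀ N₁ : ℕ} (hN₀ : 1 ≤ N₀) (hN₁ : 1 ≤ N₁) (hAN : (N₀ : ℝ) * A ^ 2 = N₁) {n : ℕ}
    {P I : Fin n → Set ℂ} {D : Fin n → Set E3} {S : Fin n → E3 → ℂ}
    (hP : ∀ k, MeasurableSet (P k)) (hD : ∀ k, MeasurableSet (D k)) (hI : ∀ k, MeasurableSet (I k))
    (hS : ∀ k, Measurable (S k)) (hPd : ∀ k k', k ≠ k' → Disjoint (P k) (P k'))
    (hPs : ∀ k, P k ⊆ Fd) (hSm : ∀ k, MapsTo (S k) (D k) (P k))
    (hSd : ∀ k, ∀ y ∈ D k, ∀ y' ∈ D k, b * ‖y - y'‖ ≤ ‖S k y - S k y'‖)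
    (hSa : ∀ k (B : Set ℂ), MeasurableSet B →
      sig.real (D k ∩ S k ⁻¹' B) = A ^ 2 * tau.real (B ∩ P k))
    (hPn : ∀ k, ∀ x ∈ P k, ∀ y ∈ P k, |(x - y).re| ≤ 1 / 2 ∧ |(x - y).im| ≤ 1 / 2)
    (hIP : ∀ k, I k ⊆ P k) (hρ : ∀ k, ∀ x ∈ I k, ∀ y, ‖x - y‖ < ρ → y ∈ P k)
    {Q : Fin N₁ → Set ℂ} {u : Fin N₁ → ℂ → ℂ} (hQ : ∀ j, MeasurableSet (Q j))
    (hu : ∀ j, Measurable (u j)) (hQd : ∀ j j', j ≠ j' → Disjoint (Q j) (Q j'))
    (hua : ∀ j (B : Set ℂ), MeasurableSet B → tau.real (u j ⁻¹' B) = N₁ * tau.real (B ∩ Q j))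
    {Γ : Type} [MeasurableSpace Γ] (γ : Measure Γ) [IsProbabilityMeasure γ]
    {g : Γ → E3 ≃ₗᵢ[ℝ] E3} (hg : ∀ x, Measurable fun θ => g θ x)
    (hgs : ∀ x, ‖x‖ = 1 → Measure.map (fun θ => g θ x) γ = sig)
    (x : Fin N₀ → E3) (hx : Conf x) {M : ℕ} (pl : Fin M → E3 × ℝ) :
    e * (N₁ : ℝ) ^ (1 + s / 2) - 4 * (C₀ + -e) * N₀ * N₁ ≤
      ∑ k, ∑ p ∈ (Finset.univ : Finset (Fin N₀)).offDiag,
        ∫ ω, ({ω : Γ × ℂ | g ω.1 (x p.1) ∈ D k} ∩ {ω : Γ × ℂ | g ω.1 (x p.2) ∈ D k} ∩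
          {ω : Γ × ℂ | Same pl (emb (S k (g ω.1 (x p.1)))) (emb (S k (g ω.1 (x p.2))))}).indicator
          (fun ω => K s ‖S k (g ω.1 (x p.1)) - S k (g ω.1 (x p.2))‖) ω ∂(γ.prod tau) -
      (N₁ : ℝ) ^ 2 * ∑ k, ∫ q, {q : ℂ × ℂ | q.1 ∈ I k ∧ ‖q.1 - q.2‖ < ρ ∧
        Same pl (emb q.1) (emb q.2)}.indicator (fun q => K s ‖q.1 - q.2‖) q ∂(tau.prod tau) := by
  classical
  set B : ℝ := C₀ + -e with hB
  have hB0 : 0 < B := by rw [hB]; linarith
  have hBC : C₀ ≤ B := by rw [hB]; linarith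
  set i0 : Fin N₀ := ⟨0, hN₀⟩ with hi0
  set R : Set ℂ := Fd \ ⋃ k, P k with hR
  have hRm : MeasurableSet R := measurableSet_Fd.diff (MeasurableSet.iUnion hP)
  let Y : ((Fin n × (Fin M → Bool)) ⊕ Fin N₁) → Fin N₀ → (Γ × ℂ) → ℂ := fun l i ω =>
    Sum.elim (fun ke : Fin n × (Fin M → Bool) => S ke.1 (g ω.1 (x i)))
      (fun j => u j ω.2) l
  let C : ((Fin n × (Fin M → Bool)) ⊕ Fin N₁) → Set ℂ := fun l =>
    Sum.elim (fun ke : Fin n × (Fin M → Bool) => P ke.1 ∩ emb ⁻¹' cell pl ke.2)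
      (fun j => R ∩ Q j) l
  let Ev : ((Fin n × (Fin M → Bool)) ⊕ Fin N₁) → Fin N₀ → Set (Γ × ℂ) := fun l i =>
    Sum.elim (fun ke : Fin n × (Fin M → Bool) =>
        {ω | ω ∈ {ω : Γ × ℂ | g ω.1 (x i) ∈ D ke.1} ∧
          emb (S ke.1 (g ω.1 (x i))) ∈ cell pl ke.2})
      (fun j => if i = i0 then {ω | ω.2 ∈ u j ⁻¹' (R ∩ Q j)} else ∅) l
  have hgm : ∀ i, Measurable fun ω : Γ × ℂ => g ω.1 (x i) := fun i =>
    (hg (x i)).comp measurable_fst
  have hSg : ∀ k i, Measurable fun ω : Γ × ℂ => S k (g ω.1 (x i)) := fun k i =>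
    (hS k).comp (hgm i)
  have hSe : ∀ k i, Measurable fun ω : Γ × ℂ => emb (S k (g ω.1 (x i))) := fun k i =>
    measurable_emb.comp (hSg k i)
  have hCm : ∀ l, MeasurableSet (C l) := by
    rintro (⟨k, ε⟩ | j)
    · exact (hP k).inter (measurable_emb (measurableSet_cell pl ε))
    · exact hRm.inter (hQ j)
  have hCF : ∀ l, C l ⊆ Fd := by
    rintro (⟨k, ε⟩ | j)
    · exact inter_subset_left.trans (hPs k)
    · exact inter_subset_left.trans sdiff_subset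
  have hCd : ∀ l l', l ≠ l' → Disjoint (C l) (C l') := by
    rintro (⟨k, ε⟩ | j) (⟨k', ε'⟩ | j') hl
    · by_cases hk : k = k'
      · subst hk
        have he : ε ≠ ε' := fun he => hl (by rw [he])
        refine Set.disjoint_left.2 fun z hz hz' => he ?_
        exact (mem_cell.1 hz.2).trans (mem_cell.1 hz'.2).symm
      · exact (hPd k k' hk).mono inter_subset_left inter_subset_left
    · refine Set.disjoint_left.2 fun z hz hz' => hz'.1.2 (mem_iUnion.2 ⟨k, hz.1⟩)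
    · refine Set.disjoint_left.2 fun z hz hz' => hz.1.2 (mem_iUnion.2 ⟨k', hz'.1⟩)
    · have hj : j ≠ j' := fun hj => hl (by rw [hj])
      exact (hQd j j' hj).mono inter_subset_right inter_subset_right
  have hEm : ∀ l i, MeasurableSet (Ev l i) := by
    rintro (⟨k, ε⟩ | j) i
    · exact (hgm i (hD k)).inter (hSe k i (measurableSet_cell pl ε))
    · by_cases h : i = i0
      · simp only [Ev, Sum.elim_inr, h, if_true]
        exact measurable_snd (hu j (hCm (Sum.inr j)))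
      · simp only [Ev, Sum.elim_inr, h, if_false]
        exact MeasurableSet.empty
  have hYm : ∀ l i, Measurable (Y l i) := by
    rintro (⟨k, ε⟩ | j) i
    · exact hSg k i
    · exact (hu j).comp measurable_snd
  have hmem : ∀ l i ω, ω ∈ Ev l i → Y l i ω ∈ C l := by
    rintro (⟨k, ε⟩ | j) i ω hω
    · exact ⟨hSm k hω.1, hω.2⟩
    · by_cases h : i = i0
      · simp only [Ev, Sum.elim_inr, h, if_true] at hω
        exact hω
      · simp only [Ev, Sum.elim_inr, h, if_false] at hω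
        exact absurd hω (notMem_empty _)
  have hempty : ∀ j i i', i ≠ i' → Ev (Sum.inr j) i ∩ Ev (Sum.inr j) i' = ∅ := by
    intro j i i' hi
    by_cases h : i = i0
    · have h' : i' ≠ i0 := fun h' => hi (h.trans h'.symm)
      simp only [Ev, Sum.elim_inr, h', if_false, inter_empty]
    · simp only [Ev, Sum.elim_inr, h, if_false, empty_inter]
  obtain ⟨δ, hδ, hδx⟩ := exists_sep hx
  have hsepk : ∀ k i i', ∀ ω : Γ × ℂ, g ω.1 (x i) ∈ D k → g ω.1 (x i') ∈ D k →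
      b * ‖x i - x i'‖ ≤ ‖S k (g ω.1 (x i)) - S k (g ω.1 (x i'))‖ := by
    intro k i i' ω h1 h3
    have h4 := hSd k _ h1 _ h3
    rwa [← map_sub, LinearIsometryEquiv.norm_map] at h4
  have hdpos : ∀ i i', i ≠ i' → 0 < b * ‖x i - x i'‖ := fun i i' hi =>
    mul_pos hb (hδ.trans_le (hδx i i' hi))
  -- the kernel in a cell
  have hkin : ∀ k i i' ω, ω ∈ {ω : Γ × ℂ | g ω.1 (x i) ∈ D k} →
      ω ∈ {ω : Γ × ℂ | g ω.1 (x i') ∈ D k} →
      kB s B (S k (g ω.1 (x i))) (S k (g ω.1 (x i'))) ≤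
        K s ‖S k (g ω.1 (x i)) - S k (g ω.1 (x i'))‖ + (C₀ + B) := by
    intro k i i' ω h1 h3
    have e1 := hSm k h1
    have e2 := hSm k h3
    rw [kB_eq (hPs k e1) (hPs k e2)]
    obtain ⟨h5, h6⟩ := hPn k _ e1 _ e2
    have h7 := (abs_le.1 (hnear _ h5 h6)).2
    linarith
  -- the mean
  have hmean : ∀ l (B' : Set ℂ), MeasurableSet B' →
      ∑ i, (γ.prod tau).real (Ev l i ∩ Y l i ⁻¹' B') = N₁ * tau.real (B' ∩ C l) := by
    rintro (⟨k, ε⟩ | j) B' hB'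
    · have h1 : ∀ i, (γ.prod tau).real (Ev (Sum.inl (k, ε)) i ∩ Y (Sum.inl (k, ε)) i ⁻¹' B') =
          A ^ 2 * tau.real (B' ∩ C (Sum.inl (k, ε))) := by
        intro i
        have h2 : Ev (Sum.inl (k, ε)) i ∩ Y (Sum.inl (k, ε)) i ⁻¹' B' =
            {ω : Γ × ℂ | g ω.1 (x i) ∈ D k ∩ S k ⁻¹' (B' ∩ emb ⁻¹' cell pl ε)} := by
          ext ω
          simp only [Ev, Y, Sum.elim_inl, mem_inter_iff, mem_preimage, Set.mem_ofPred_eq]
          tauto
        have h3 : MeasurableSet (B' ∩ emb ⁻¹' cell pl ε) :=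
          hB'.inter (measurable_emb (measurableSet_cell pl ε))
        rw [h2, Pr_fst γ hg hgs (hx.2 i) ((hD k).inter (hS k h3)), hSa k _ h3]
        congr 2
        simp only [C, Sum.elim_inl]
        ext z
        simp only [mem_inter_iff]
        tauto
      rw [Finset.sum_congr rfl fun i _ => h1 i, Finset.sum_const, Finset.card_univ,
        Fintype.card_fin, nsmul_eq_mul, ← mul_assoc, hAN]
    · rw [Finset.sum_eq_single i0]
      · have h2 : Ev (Sum.inr j) i0 ∩ Y (Sum.inr j) i0 ⁻¹' B' =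
            {ω : Γ × ℂ | ω.2 ∈ u j ⁻¹' (C (Sum.inr j) ∩ B')} := by
          ext ω
          simp only [Ev, Y, C, Sum.elim_inr, if_true, mem_inter_iff, mem_preimage,
            Set.mem_ofPred_eq]
        rw [h2, Pr_snd γ (hu j ((hCm _).inter hB')), hua j _ ((hCm _).inter hB')]
        congr 2
        simp only [C, Sum.elim_inr]
        ext z
        simp only [mem_inter_iff]
        tauto
      · intro i _ hi
        simp only [Ev, Sum.elim_inr, hi, if_false, empty_inter, measureReal_empty]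
      · intro h; exact absurd (Finset.mem_univ _) h
  have hfull : ∑ l, tau.real (C l) = 1 := by
    have h1 : ∀ j, tau.real (Q j) = (N₁ : ℝ)⁻¹ := by
      intro j
      have h2 := hua j univ MeasurableSet.univ
      rw [preimage_univ, univ_inter, probReal_univ] at h2
      have h3 : (N₁ : ℝ) ≠ 0 := by
        have : N₁ ≠ 0 := by omega
        exact_mod_cast this
      field_simp
      linarith
    have h2 : tau.real (⋃ j, Q j) = 1 := by
      rw [measureReal_iUnion_fintype (fun j j' h => hQd j j' h) hQ, Finset.sum_congr rfl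
        fun j _ => h1 j, Finset.sum_const, Finset.card_univ, Fintype.card_fin, nsmul_eq_mul]
      refine mul_inv_cancel₀ ?_
      have : N₁ ≠ 0 := by omega
      exact_mod_cast this
    rw [← measureReal_iUnion_fintype (fun j j' h => hCd j j' h) hCm]
    have h3 : Fd ∩ ⋃ j, Q j ⊆ ⋃ l, C l := by
      rintro z ⟨hz, hzQ⟩
      by_cases h : z ∈ ⋃ k, P k
      · obtain ⟨k, hk⟩ := mem_iUnion.1 h
        exact mem_iUnion.2 ⟨Sum.inl (k, lab pl (emb z)), hk, mem_cell.2 rfl⟩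
      · obtain ⟨j, hj⟩ := mem_iUnion.1 hzQ
        exact mem_iUnion.2 ⟨Sum.inr j, ⟨hz, h⟩, hj⟩
    refine le_antisymm measureReal_le_one ?_
    have h4 : tau.real (Fd ∩ ⋃ j, Q j) = 1 := by
      rw [← h2, Measure.real, Measure.real]
      congr 1
      refine measure_congr ?_
      filter_upwards [ae_tau] with z hz
      simp only [eq_iff_iff]
      change (z ∈ Fd ∧ z ∈ ⋃ j, Q j) ↔ z ∈ ⋃ j, Q j
      simp [hz]
    rw [← h4]
    exact measureReal_mono h3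
  set α : ℝ := e * (N₁ : ℝ) ^ (1 + s / 2) * (1 - (1 + s / 2) / 2) -
      (B + e * ((1 + s / 2) / 2) * ((N₁ : ℝ) ^ (1 + s / 2) / (N₁ : ℝ) ^ 2)) * (N₁ : ℝ) ^ 2 with hα
  set β : ℝ := 2 * (B + e * ((1 + s / 2) / 2) * ((N₁ : ℝ) ^ (1 + s / 2) / (N₁ : ℝ) ^ 2)) * N₁ -
        (B + GG s 0) with hβ
  have hΦ : ∀ (N' : ℕ) (z : Fin N' → ℂ), Function.Injective z → (∀ i, ∃ l, z i ∈ C l) →
      α + β * N' ≤ ∑ p ∈ (Finset.univ : Finset (Fin N')).offDiag, kB s B (z p.1) (z p.2) := by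
    intro N' z hz hzC
    have hzF : ∀ i, z i ∈ Fd := fun i => by
      obtain ⟨l, hl⟩ := hzC i
      exact hCF l hl
    refine (affine_lb h0 h2 he (show -e ≤ B by rw [hB]; linarith) hN₁ N' (G₀ := GG s 0)).trans ?_
    have h1 := hT N' z hzF hz
    have h3 : ∑ p ∈ (Finset.univ : Finset (Fin N')).offDiag, kB s B (z p.1) (z p.2) =
        ∑ p ∈ (Finset.univ : Finset (Fin N')).offDiag, GG s (z p.1 - z p.2) +
          B * ((N' : ℝ) * N' - N') := by
      rw [Finset.sum_congr rfl fun p _ => kB_eq (hzF p.1) (hzF p.2), Finset.sum_add_distrib,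
        Finset.sum_const, Finset.offDiag_card, Finset.card_univ, Fintype.card_fin, nsmul_eq_mul]
      rw [Nat.cast_sub (Nat.le_mul_self N'), Nat.cast_mul]
      ring
    rw [h3]
    linarith
  have key := paste_gen tau (γ.prod tau) (kB s B) (measurable_kB h0 h2 B)
    (kB_nonneg hlo hBC) (integrable_kB h0 h2 B) N₀ Y Ev C N₁ hYm hEm hCm hCd hmem ?_ ?_ hmean hfull
    α β hΦ
  · rw [integral_kB h0 h2 B] at key
    have hN : (0 : ℝ) < N₁ := by exact_mod_cast hN₁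
    have hN0 : (1 : ℝ) ≤ N₀ := by exact_mod_cast hN₀
    -- the pair terms
    have hW : ∑ l, ∑ p ∈ (Finset.univ : Finset (Fin N₀)).offDiag,
        ∫ ω in Ev l p.1 ∩ Ev l p.2, kB s B (Y l p.1 ω) (Y l p.2 ω) ∂(γ.prod tau) ≤
        ∑ k, ∑ p ∈ (Finset.univ : Finset (Fin N₀)).offDiag,
        ∫ ω, ({ω : Γ × ℂ | g ω.1 (x p.1) ∈ D k} ∩ {ω : Γ × ℂ | g ω.1 (x p.2) ∈ D k} ∩
          {ω : Γ × ℂ | Same pl (emb (S k (g ω.1 (x p.1)))) (emb (S k (g ω.1 (x p.2))))}).indicator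
          (fun ω => K s ‖S k (g ω.1 (x p.1)) - S k (g ω.1 (x p.2))‖) ω ∂(γ.prod tau) +
        (C₀ + B) * (N₀ * N₁) := by
      rw [Fintype.sum_sum_type]
      have hz : ∀ j : Fin N₁, ∑ p ∈ (Finset.univ : Finset (Fin N₀)).offDiag,
          ∫ ω in Ev (Sum.inr j) p.1 ∩ Ev (Sum.inr j) p.2,
            kB s B (Y (Sum.inr j) p.1 ω) (Y (Sum.inr j) p.2 ω) ∂(γ.prod tau) = 0 := by
        intro j
        refine Finset.sum_eq_zero fun p hp => ?_
        rw [hempty j _ _ (Finset.mem_offDiag.1 hp).2.2, setIntegral_empty]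
      rw [Finset.sum_eq_zero (fun j _ => hz j), add_zero]
      have hKi : ∀ k, ∀ p ∈ (Finset.univ : Finset (Fin N₀)).offDiag,
          IntegrableOn (fun ω : Γ × ℂ => K s ‖S k (g ω.1 (x p.1)) - S k (g ω.1 (x p.2))‖)
            ({ω : Γ × ℂ | g ω.1 (x p.1) ∈ D k} ∩ {ω : Γ × ℂ | g ω.1 (x p.2) ∈ D k})
            (γ.prod tau) := by
        intro k p hp
        have hp1 : p.1 ≠ p.2 := (Finset.mem_offDiag.1 hp).2.2
        refine Measure.integrableOn_of_bounded (M := K s (b * ‖x p.1 - x p.2‖))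
          (measure_ne_top _ _) ?_ ?_
        · exact ((measurable_K s).comp ((hSg k p.1).sub (hSg k p.2)).norm).aestronglyMeasurable
        · refine (ae_restrict_iff' ((hgm _ (hD k)).inter (hgm _ (hD k)))).2
            (Eventually.of_forall fun ω hω => ?_)
          rw [Real.norm_of_nonneg (K_nonneg (norm_nonneg _))]
          exact K_anti h0 (hdpos _ _ hp1) (hsepk k _ _ ω hω.1 hω.2)
      have hq : ∀ q : Fin n × (Fin M → Bool), ∀ p ∈ (Finset.univ : Finset (Fin N₀)).offDiag,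
          ∫ ω in Ev (Sum.inl q) p.1 ∩ Ev (Sum.inl q) p.2,
            kB s B (Y (Sum.inl q) p.1 ω) (Y (Sum.inl q) p.2 ω) ∂(γ.prod tau) ≤
          ∫ ω in Ev (Sum.inl q) p.1 ∩ Ev (Sum.inl q) p.2,
            K s ‖S q.1 (g ω.1 (x p.1)) - S q.1 (g ω.1 (x p.2))‖ ∂(γ.prod tau) +
          (C₀ + B) * (γ.prod tau).real (Ev (Sum.inl q) p.1) := by
        intro q p hp
        have hp1 : p.1 ≠ p.2 := (Finset.mem_offDiag.1 hp).2.2
        have hsub : Ev (Sum.inl q) p.1 ∩ Ev (Sum.inl q) p.2 ⊆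
            {ω : Γ × ℂ | g ω.1 (x p.1) ∈ D q.1} ∩ {ω : Γ × ℂ | g ω.1 (x p.2) ∈ D q.1} :=
          fun ω hω => ⟨hω.1.1, hω.2.1⟩
        have hms : MeasurableSet (Ev (Sum.inl q) p.1 ∩ Ev (Sum.inl q) p.2) :=
          (hEm _ _).inter (hEm _ _)
        have hKi' := (hKi q.1 p hp).mono_set hsub
        have hci : IntegrableOn (fun _ : Γ × ℂ => C₀ + B)
            (Ev (Sum.inl q) p.1 ∩ Ev (Sum.inl q) p.2) (γ.prod tau) :=
          (integrable_const _).integrableOn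
        have h5 : ∫ ω in Ev (Sum.inl q) p.1 ∩ Ev (Sum.inl q) p.2,
            kB s B (Y (Sum.inl q) p.1 ω) (Y (Sum.inl q) p.2 ω) ∂(γ.prod tau) ≤
            ∫ ω in Ev (Sum.inl q) p.1 ∩ Ev (Sum.inl q) p.2,
              (K s ‖S q.1 (g ω.1 (x p.1)) - S q.1 (g ω.1 (x p.2))‖ + (C₀ + B)) ∂(γ.prod tau) := by
          refine setIntegral_mono_on ?_ (hKi'.add hci) hms ?_
          · refine Integrable.mono' (hKi'.add hci) ?_ ?_
            · exact ((measurable_kB h0 h2 B).comp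
                ((hYm (Sum.inl q) p.1).prodMk (hYm (Sum.inl q) p.2))).aestronglyMeasurable
            · refine (ae_restrict_iff' hms).2 (Eventually.of_forall fun ω hω => ?_)
              rw [Real.norm_of_nonneg (kB_nonneg hlo hBC _ _)]
              exact hkin q.1 p.1 p.2 ω hω.1.1 hω.2.1
          · intro ω hω
            exact hkin q.1 p.1 p.2 ω hω.1.1 hω.2.1
        rw [integral_add hKi' hci, setIntegral_const, smul_eq_mul] at h5
        refine h5.trans (add_le_add_right ?_ _)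
        rw [mul_comm]
        exact mul_le_mul_of_nonneg_left (measureReal_mono inter_subset_left) (by linarith)
      refine (Finset.sum_le_sum fun q _ => Finset.sum_le_sum fun p hp => hq q p hp).trans ?_
      simp only [Finset.sum_add_distrib]
      refine add_le_add ?_ ?_
      · rw [Fintype.sum_prod_type]
        refine Finset.sum_le_sum fun k _ => ?_
        rw [Finset.sum_comm]
        refine Finset.sum_le_sum fun p hp => le_of_eq ?_
        exact sum_cells (γ.prod tau) (hSe k p.1) (hSe k p.2)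
          (T := {ω : Γ × ℂ | g ω.1 (x p.1) ∈ D k}) (T' := {ω : Γ × ℂ | g ω.1 (x p.2) ∈ D k})
          (hgm _ (hD k)) (hgm _ (hD k))
          (f := fun ω => K s ‖S k (g ω.1 (x p.1)) - S k (g ω.1 (x p.2))‖) (hKi k p hp) pl
      · simp only [← Finset.mul_sum]
        refine mul_le_mul_of_nonneg_left ?_ (by linarith)
        have h6 : ∀ q : Fin n × (Fin M → Bool),
            ∑ p ∈ (Finset.univ : Finset (Fin N₀)).offDiag,
              (γ.prod tau).real (Ev (Sum.inl q) p.1) ≤ N₀ * (N₁ * tau.real (C (Sum.inl q))) := by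
          intro q
          refine (offDiag_fst_le (fun i => (γ.prod tau).real (Ev (Sum.inl q) i))
            fun i => measureReal_nonneg).trans (le_of_eq ?_)
          have h7 := hmean (Sum.inl q) univ MeasurableSet.univ
          simp only [preimage_univ, inter_univ, univ_inter] at h7
          rw [h7]
        refine (Finset.sum_le_sum fun q _ => h6 q).trans ?_
        rw [← Finset.mul_sum, ← Finset.mul_sum]
        rw [Fintype.sum_sum_type] at hfull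
        have h8 : 0 ≤ ∑ j : Fin N₁, tau.real (C (Sum.inr j)) :=
          Finset.sum_nonneg fun j _ => measureReal_nonneg
        have h9 : ∑ q, tau.real (C (Sum.inl q)) ≤ 1 := by linarith
        have h10 : (N₁ : ℝ) * ∑ q, tau.real (C (Sum.inl q)) ≤ N₁ := by nlinarith only [hfull, h8]
        exact mul_le_mul_of_nonneg_left h10 (by linarith)
    -- the background
    have hU : ∑ k, ∫ q, {q : ℂ × ℂ | q.1 ∈ I k ∧ ‖q.1 - q.2‖ < ρ ∧
        Same pl (emb q.1) (emb q.2)}.indicator (fun q => K s ‖q.1 - q.2‖) q ∂(tau.prod tau) ≤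
        ∑ l, ∫ x in C l, ∫ z in C l, kB s B x z ∂tau ∂tau := by
      rw [Fintype.sum_sum_type, Fintype.sum_prod_type]
      have hz : 0 ≤ ∑ j : Fin N₁, ∫ x in C (Sum.inr j), ∫ z in C (Sum.inr j),
          kB s B x z ∂tau ∂tau := Finset.sum_nonneg fun j _ =>
        integral_nonneg fun x => integral_nonneg fun z => kB_nonneg hlo hBC _ _
      refine le_trans ?_ (le_add_of_nonneg_right hz)
      refine Finset.sum_le_sum fun k _ => (U_low h0 h2 (hP k) (hI k) (hIP k) (hρ k) pl).trans ?_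
      refine Finset.sum_le_sum fun ε _ => ?_
      have hmC := hCm (Sum.inl (k, ε))
      change ∫ x in C (Sum.inl (k, ε)), ∫ z in C (Sum.inl (k, ε)), K s ‖x - z‖ ∂tau ∂tau ≤ _
      rw [← setIntegral_prod (fun q : ℂ × ℂ => K s ‖q.1 - q.2‖) (int_K h0 h2).integrableOn,
        ← setIntegral_prod (fun q : ℂ × ℂ => kB s B q.1 q.2)
          (integrable_kB h0 h2 B).integrableOn]
      refine setIntegral_mono_on (int_K h0 h2).integrableOn
        (integrable_kB h0 h2 B).integrableOn (hmC.prod hmC) ?_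
      rintro ⟨z, z'⟩ ⟨hz1, hz2⟩
      have e1 : z ∈ P k := hz1.1
      have e2 : z' ∈ P k := hz2.1
      simp only
      rw [kB_eq (hPs k e1) (hPs k e2)]
      obtain ⟨h5, h6⟩ := hPn k _ e1 _ e2
      have h7 := (abs_le.1 (hnear _ h5 h6)).1
      linarith
    have hG0 : GG s 0 ≤ C₀ := by
      have h5 := hnear 0 (by simp) (by simp)
      rw [norm_zero, K, Real.zero_rpow (by linarith), sub_zero] at h5
      exact (abs_le.1 h5).2
    have hLN : (N₁ : ℝ) ^ (1 + s / 2) / (N₁ : ℝ) ^ 2 * (N₁ : ℝ) ^ 2 = (N₁ : ℝ) ^ (1 + s / 2) := by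
      field_simp
    have hαβ : α + β * N₁ = e * (N₁ : ℝ) ^ (1 + s / 2) + B * (N₁ : ℝ) ^ 2 -
        (B + GG s 0) * N₁ := by
      rw [hα, hβ]
      linear_combination (e * ((1 + s / 2) / 2)) * hLN
    have hNN : (N₁ : ℝ) ≤ N₀ * N₁ := by nlinarith only [hN0]
    have hU' := mul_le_mul_of_nonneg_left hU (show (0 : ℝ) ≤ (N₁ : ℝ) ^ 2 by positivity)
    have h11 : (B + GG s 0) * N₁ ≤ 2 * B * (N₀ * N₁) := by
      have h12 : (B + GG s 0) * N₁ ≤ 2 * B * N₁ :=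
        mul_le_mul_of_nonneg_right (by linarith) hN.le
      have h13 : 2 * B * N₁ ≤ 2 * B * (N₀ * N₁) :=
        mul_le_mul_of_nonneg_left hNN (by linarith)
      linarith
    have h14 : (C₀ + B) * ((N₀ : ℝ) * N₁) ≤ 2 * B * (N₀ * N₁) :=
      mul_le_mul_of_nonneg_right (by linarith) (by positivity)
    rw [hαβ] at key
    linarith only [key, hW, hU', h11, h14]
  · rintro (⟨k, ε⟩ | j) i i' hi ω hω
    · intro heq
      have h3 := hsepk k i i' ω hω.1.1 hω.2.1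
      change S k (g ω.1 (x i)) = S k (g ω.1 (x i')) at heq
      rw [heq, sub_self, norm_zero] at h3
      linarith [hdpos i i' hi]
    · rw [hempty j i i' hi] at hω
      exact absurd hω (notMem_empty _)
  · refine ⟨K s (b * δ) + (C₀ + B), ?_⟩
    rintro (⟨k, ε⟩ | j) i i' hi ω hω
    · refine (hkin k i i' ω hω.1.1 hω.2.1).trans ?_
      have h3 : K s ‖S k (g ω.1 (x i)) - S k (g ω.1 (x i'))‖ ≤ K s (b * δ) :=
        K_anti h0 (mul_pos hb hδ)
          ((mul_le_mul_of_nonneg_left (hδx i i' hi) hb.le).trans (hsepk k i i' ω hω.1.1 hω.2.1))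
      linarith
    · rw [hempty j i i' hi] at hω
      exact absurd hω (notMem_empty _)

end Pool.Agent.Helper42.RZ2.R11

namespace Pool.Agent.Helper42.RZ2

open Pool.Agent.Helper42.RZ Pool.Agent.Helper42.RZ.S11 R11

theorem torus_M {s : ℝ} (h0 : 0 < s) (h2 : s < 2) {e : ℝ} (he : e < 0) (hT : TorusBound s e)
    {η κ : ℝ} (hη : 0 < η) (hη1 : η < 1) (hκ : 0 < κ) : ∃ ε₀ C : ℝ, 0 < ε₀ ∧
    ∀ (N₀ N₁ : ℕ), 1 ≤ N₀ → N₀ ≤ N₁ → ∀ ρ : ℝ, 0 < ρ → ρ * Real.sqrt (N₁ / N₀) ≤ ε₀ →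
    ∀ x : Fin N₀ → E3, Conf x → ∀ M : ℕ,
    e * (N₁ : ℝ) ^ (1 + s / 2) - C * N₀ * N₁ ≤
      (N₁ : ℝ) / N₀ * PS x (fun r => K s ((1 - η) * Real.sqrt (N₀ / (4 * Real.pi * N₁)) * r) *
        (1 - (1 - η) * Real.sqrt (N₀ / (4 * Real.pi * N₁)) * r / 4) ^ M) -
      ((N₁ : ℝ) ^ 2 * (1 - κ) * (4 * Real.pi)) *
        ∫ r in (0 : ℝ)..ρ, K s r * (1 - r / 4) ^ M * (r / 2) := by
  classical
  obtain ⟨ε₀, hε₀, hpatch⟩ := exists_torus_patches hη hη1 hκ
  obtain ⟨C₀, hC₀, hlo, hnear⟩ := GG_bounds h0 h2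
  refine ⟨min ε₀ 2, 4 * (C₀ + -e), lt_min hε₀ two_pos, ?_⟩
  intro N₀ N₁ hN₀ hN ρ hρ hρA x hx M
  have hN₁ : 1 ≤ N₁ := hN₀.trans hN
  have hN₀' : (0 : ℝ) < N₀ := by exact_mod_cast hN₀
  have hN₁' : (0 : ℝ) < N₁ := by exact_mod_cast hN₁
  have hNR : (N₀ : ℝ) ≤ N₁ := by exact_mod_cast hN
  have hπ := Real.pi_pos
  set A : ℝ := Real.sqrt (N₁ / N₀) with hAdef
  have hA : 1 ≤ A := by
    rw [hAdef, Real.one_le_sqrt, le_div_iff₀ hN₀', one_mul]
    exact hNR
  have hA0 : 0 < A := by linarith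
  have hA2 : A ^ 2 = N₁ / N₀ := Real.sq_sqrt (by positivity)
  have hAN : (N₀ : ℝ) * A ^ 2 = N₁ := by rw [hA2]; field_simp
  have hρ2 : ρ ≤ 2 := by
    have h3 := hρA.trans (min_le_right _ _)
    nlinarith only [h3, hη, hη1, hρ, hA]
  set b : ℝ := (1 - η) / (Real.sqrt (4 * Real.pi) * A) with hbdef
  have hbA : b = (1 - η) * Real.sqrt (N₀ / (4 * Real.pi * N₁)) := by
    rw [hbdef, hAdef, ← Real.sqrt_mul (by positivity), div_eq_mul_inv, ← Real.sqrt_inv]
    congr 2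
    field_simp
  have hs4 : 1 ≤ Real.sqrt (4 * Real.pi) := by
    rw [Real.one_le_sqrt]
    linarith [Real.pi_gt_three]
  have hb : 0 < b := div_pos (by linarith) (by positivity)
  have hb1 : b ≤ 1 := by
    rw [hbdef, div_le_one (by positivity)]
    nlinarith only [hA, hs4, hη, hη1]
  obtain ⟨n, P, I, D, S, hP, hD, hI, hS, hPd, hPs, -, hSm, hSd, hSa, hPn, hIP, hρI, hIκ⟩ :=
    hpatch A hA ρ hρ (hρA.trans (min_le_left _ _))
  obtain ⟨Q, u, hQ, hu, hQd, hua⟩ := exists_torus_sectors N₁ hN₁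
  obtain ⟨Γ, _, γ, _, g, hg, hgs⟩ := exists_rot
  have key := fun pl : Fin M → E3 × ℝ => pointwise h0 h2 he hT hC₀ hlo hnear hb hN₀ hN₁ hAN hP hD
    hI hS hPd hPs hSm hSd hSa hPn hIP hρI hQ hu hQd hua γ hg hgs x hx pl
  have hgm : ∀ i, Measurable fun ω : Γ × ℂ => g ω.1 (x i) := fun i =>
    (hg (x i)).comp measurable_fst
  have hSg : ∀ k i, Measurable fun ω : Γ × ℂ => S k (g ω.1 (x i)) := fun k i =>
    (hS k).comp (hgm i)
  -- the averages
  have hW : ∀ k, ∀ p ∈ (Finset.univ : Finset (Fin N₀)).offDiag, _ := fun k p hp =>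
    R11.W_avg h0 (γ.prod tau) (fun ω => S k (g ω.1 (x p.1))) (fun ω => S k (g ω.1 (x p.2)))
      (hSg k p.1) (hSg k p.2)
      ({ω : Γ × ℂ | g ω.1 (x p.1) ∈ D k} ∩ {ω : Γ × ℂ | g ω.1 (x p.2) ∈ D k})
      ((hgm _ (hD k)).inter (hgm _ (hD k)))
      (fun ω hω => ⟨hPs k (hSm k hω.1), hPs k (hSm k hω.2)⟩)
      (d := b * ‖x p.1 - x p.2‖)
      (mul_pos hb (by
        rw [norm_pos_iff, sub_ne_zero]
        exact fun h1 => (Finset.mem_offDiag.1 hp).2.2 (hx.1 h1)))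
      (fun ω hω => by
        have h3 := hSd k _ hω.1 _ hω.2
        rwa [← map_sub, LinearIsometryEquiv.norm_map] at h3) M
  have hU := fun k => R11.U_avg h0 h2 (I k) (hI k) hρ
    (fun z hz y hy => hPs k (hρI k z hz y hy)) M
  set β : ℝ := e * (N₁ : ℝ) ^ (1 + s / 2) - 4 * (C₀ + -e) * N₀ * N₁ with hβ
  have h1 : β = ∫ _pl : Fin M → E3 × ℝ, β ∂(Pl M) := by
    rw [integral_const, probReal_univ, one_smul]
  have hiW : ∀ k, Integrable (fun pl : Fin M → E3 × ℝ =>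
      ∑ p ∈ (Finset.univ : Finset (Fin N₀)).offDiag,
        ∫ ω, ({ω : Γ × ℂ | g ω.1 (x p.1) ∈ D k} ∩ {ω : Γ × ℂ | g ω.1 (x p.2) ∈ D k} ∩
          {ω : Γ × ℂ | Same pl (emb (S k (g ω.1 (x p.1)))) (emb (S k (g ω.1 (x p.2))))}).indicator
          (fun ω => K s ‖S k (g ω.1 (x p.1)) - S k (g ω.1 (x p.2))‖) ω ∂(γ.prod tau)) (Pl M) :=
    fun k => integrable_finsetSum _ fun p hp => (hW k p hp).1
  have h3 : β ≤ ∫ pl : Fin M → E3 × ℝ,
      (∑ k, ∑ p ∈ (Finset.univ : Finset (Fin N₀)).offDiag,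
        ∫ ω, ({ω : Γ × ℂ | g ω.1 (x p.1) ∈ D k} ∩ {ω : Γ × ℂ | g ω.1 (x p.2) ∈ D k} ∩
          {ω : Γ × ℂ | Same pl (emb (S k (g ω.1 (x p.1)))) (emb (S k (g ω.1 (x p.2))))}).indicator
          (fun ω => K s ‖S k (g ω.1 (x p.1)) - S k (g ω.1 (x p.2))‖) ω ∂(γ.prod tau) -
      (N₁ : ℝ) ^ 2 * ∑ k, ∫ q, {q : ℂ × ℂ | q.1 ∈ I k ∧ ‖q.1 - q.2‖ < ρ ∧
        Same pl (emb q.1) (emb q.2)}.indicator (fun q => K s ‖q.1 - q.2‖) q ∂(tau.prod tau))
      ∂(Pl M) := by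
    conv_lhs => rw [h1]
    refine integral_mono (integrable_const _) ?_ key
    exact (integrable_finsetSum _ fun k _ => hiW k).sub
      ((integrable_finsetSum _ fun k _ => (hU k).1).const_mul _)
  rw [integral_sub (integrable_finsetSum _ fun k _ => hiW k)
      ((integrable_finsetSum _ fun k _ => (hU k).1).const_mul _), integral_const_mul,
    integral_finsetSum _ (fun k _ => hiW k), integral_finsetSum _ (fun k _ => (hU k).1)] at h3
  have hsmall : ∀ p : Fin N₀ × Fin N₀, b * ‖x p.1 - x p.2‖ ≤ 2 := by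
    intro p
    have h5 : ‖x p.1 - x p.2‖ ≤ 2 := by
      calc ‖x p.1 - x p.2‖ ≤ ‖x p.1‖ + ‖x p.2‖ := norm_sub_le _ _
        _ = 2 := by rw [hx.2, hx.2]; norm_num
    have h7 := mul_le_mul hb1 h5 (norm_nonneg _) zero_le_one
    linarith
  have hassoc : (N₁ : ℝ) ^ 2 * (1 - κ) * (4 * Real.pi) *
      ∫ r in (0 : ℝ)..ρ, K s r * (1 - r / 4) ^ M * (r / 2) = (N₁ : ℝ) ^ 2 * ((1 - κ) *
      (4 * Real.pi * ∫ r in (0 : ℝ)..ρ, K s r * (1 - r / 4) ^ M * (r / 2))) := by ring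
  rw [hassoc]
  refine h3.trans (sub_le_sub ?_ (mul_le_mul_of_nonneg_left ?_ (by positivity)))
  · have hk : ∀ k, ∫ pl : Fin M → E3 × ℝ, ∑ p ∈ (Finset.univ : Finset (Fin N₀)).offDiag,
        ∫ ω, ({ω : Γ × ℂ | g ω.1 (x p.1) ∈ D k} ∩ {ω : Γ × ℂ | g ω.1 (x p.2) ∈ D k} ∩
          {ω : Γ × ℂ | Same pl (emb (S k (g ω.1 (x p.1)))) (emb (S k (g ω.1 (x p.2))))}).indicator
          (fun ω => K s ‖S k (g ω.1 (x p.1)) - S k (g ω.1 (x p.2))‖) ω ∂(γ.prod tau) ∂(Pl M) ≤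
        A ^ 2 * tau.real (P k) * PS x (fun r => K s (b * r) * (1 - b * r / 4) ^ M) := by
      intro k
      rw [integral_finsetSum _ (fun p hp => (hW k p hp).1), PS, Finset.mul_sum]
      refine Finset.sum_le_sum fun p hp => (hW k p hp).2.trans ?_
      refine mul_le_mul_of_nonneg_right ?_ ?_
      · have h4 := hSa k univ MeasurableSet.univ
        rw [preimage_univ, inter_univ, univ_inter] at h4
        rw [← h4, ← Pr_fst γ hg hgs (hx.2 p.1) (hD k)]
        exact measureReal_mono inter_subset_left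
      · refine mul_nonneg (K_nonneg (by positivity)) (pow_nonneg ?_ M)
        linarith [hsmall p]
    refine (Finset.sum_le_sum fun k _ => hk k).trans ?_
    rw [← Finset.sum_mul, ← Finset.mul_sum]
    have h8 : ∑ k, tau.real (P k) ≤ 1 := by
      rw [← measureReal_iUnion_fintype (fun j j' h => hPd j j' h) hP]
      exact measureReal_le_one
    rw [← hA2, ← hbA]
    have h9 : 0 ≤ PS x (fun r => K s (b * r) * (1 - b * r / 4) ^ M) := by
      refine Finset.sum_nonneg fun p _ => ?_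
      refine mul_nonneg (K_nonneg (by positivity)) (pow_nonneg ?_ M)
      linarith [hsmall p]
    refine mul_le_mul_of_nonneg_right ?_ h9
    have h10 : (0 : ℝ) ≤ A ^ 2 := by positivity
    nlinarith only [h8]
  · rw [Finset.sum_congr rfl fun k _ => (hU k).2, ← Finset.sum_mul]
    refine mul_le_mul_of_nonneg_right hIκ ?_
    refine mul_nonneg (by positivity) ?_
    refine intervalIntegral.integral_nonneg hρ.le fun r hr => ?_
    refine mul_nonneg (mul_nonneg (K_nonneg hr.1) (pow_nonneg ?_ M)) ?_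
    · linarith [hr.2]
    · linarith [hr.1]

end Pool.Agent.Helper42.RZ2
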