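import Pool.Agent.Helper32.RZ.S10
import Pool.Agent.Helper42.RZ2.Basic

/-! # RZ2-R7: patches of the unit torus which are images of patches of the sphere -/

set_option autoImplicit false

open MeasureTheory Set Metric Filter Topology
open scoped ENNReal

namespace Pool.Agent.Helper42.RZ2.R7

open Pool.Agent.Helper42.RZ Pool.Agent.Helper42.RZ2 Pool.Agent.Helper32.RZ

/-- the map of the plane used for the patches -/
noncomputable def Psi (p q l : ℝ) (v : ℝ × ℝ) : ℂ := ⟨p - l * v.1, q - l * v.2⟩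

theorem measurable_Psi (p q l : ℝ) : Measurable (Psi p q l) := by
  have h : Psi p q l = fun v => ((p - l * v.1 : ℝ) : ℂ) + ((q - l * v.2 : ℝ) : ℂ) * Complex.I := by
    funext v
    apply Complex.ext <;> simp [Psi]
  rw [h]
  fun_prop

theorem volume_preimage_Psi (p q : ℝ) {l : ℝ} (hl : 0 < l) {E : Set ℂ} (hE : MeasurableSet E) :
    (volume : Measure (ℝ × ℝ)).real (Psi p q l ⁻¹' E) = (l ^ 2)⁻¹ * (volume : Measure ℂ).real E := by
  set F : Set (ℝ × ℝ) := Complex.measurableEquivRealProd.symm ⁻¹' E with hF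
  have hFm : MeasurableSet F := Complex.measurableEquivRealProd.symm.measurable hE
  have h1 : Psi p q l ⁻¹' E = Neg.neg ⁻¹' (T p q l l ⁻¹' F) := by
    ext v
    simp only [mem_preimage, hF]
    have : Psi p q l v = Complex.measurableEquivRealProd.symm (T p q l l (-v)) := by
      apply Complex.ext
      · simp only [Psi, T]
        show _ = (Complex.equivRealProd.symm _).re
        simp
        ring
      · simp only [Psi, T]
        show _ = (Complex.equivRealProd.symm _).im
        simp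
        ring
    rw [this]
  have h2 : (volume : Measure (ℝ × ℝ)).real (Psi p q l ⁻¹' E) =
      (volume : Measure (ℝ × ℝ)).real (T p q l l ⁻¹' F) := by
    rw [h1, Measure.real, Measure.measure_preimage_neg, Measure.real]
  rw [h2, volume_preimage_T p q hl hl hFm, ← pow_two]
  congr 1
  rw [Measure.real, Measure.real, hF, Complex.volume_preserving_equiv_real_prod.symm.measure_preimage
    hE.nullMeasurableSet]

/-- half open square -/
def Sqr (p q u : ℝ) : Set ℂ := {x | x.re ∈ Ico (p - u) (p + u) ∧ x.im ∈ Ico (q - u) (q + u)}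

/-- closed square -/
def SqI (p q u : ℝ) : Set ℂ := {x | x.re ∈ Icc (p - u) (p + u) ∧ x.im ∈ Icc (q - u) (q + u)}

theorem measurableSet_Sqr (p q u : ℝ) : MeasurableSet (Sqr p q u) :=
  (Complex.measurable_re measurableSet_Ico).inter (Complex.measurable_im measurableSet_Ico)

theorem measurableSet_SqI (p q u : ℝ) : MeasurableSet (SqI p q u) :=
  (Complex.measurable_re measurableSet_Icc).inter (Complex.measurable_im measurableSet_Icc)

theorem volume_SqI (p q : ℝ) {u : ℝ} (hu : 0 ≤ u) :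
    (volume : Measure ℂ).real (SqI p q u) = (2 * u) ^ 2 := by
  have h : SqI p q u = Complex.measurableEquivRealProd ⁻¹'
      (Icc (p - u) (p + u) ×ˢ Icc (q - u) (q + u)) := by
    ext x
    simp only [SqI, mem_preimage, Set.mem_prod, Complex.measurableEquivRealProd_apply]
    rfl
  rw [Measure.real, h, Complex.volume_preserving_equiv_real_prod.measure_preimage
    (measurableSet_Icc.prod measurableSet_Icc).nullMeasurableSet, Measure.volume_eq_prod,
    Measure.prod_prod, Real.volume_Icc, Real.volume_Icc, ← ENNReal.ofReal_mul (by linarith),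
    ENNReal.toReal_ofReal (by nlinarith)]
  ring

theorem grid_disj' {c u x : ℝ} (hu : 0 < u) {i j : ℕ}
    (hi : x ∈ Ico (c + (2 * i + 1) * u - u) (c + (2 * i + 1) * u + u))
    (hj : x ∈ Ico (c + (2 * j + 1) * u - u) (c + (2 * j + 1) * u + u)) : i = j := by
  have key : ∀ i j : ℕ, x ∈ Ico (c + (2 * i + 1) * u - u) (c + (2 * i + 1) * u + u) →
      x ∈ Ico (c + (2 * j + 1) * u - u) (c + (2 * j + 1) * u + u) → i ≤ j := by
    intro i j hi hj
    have h1 : 2 * (i : ℝ) * u < 2 * ((j : ℝ) + 1) * u := by linarith [hi.1, hj.2]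
    have h2 : (i : ℝ) < (j : ℝ) + 1 := by
      by_contra hcon
      push Not at hcon
      have := mul_le_mul_of_nonneg_right hcon hu.le
      linarith only [this, h1]
    exact Nat.lt_succ_iff.1 (by exact_mod_cast h2)
  exact le_antisymm (key i j hi hj) (key j i hj hi)

theorem exists_torus_patches {η κ : ℝ} (hη : 0 < η) (hη1 : η < 1) (hκ : 0 < κ) :
    ∃ ε₀ : ℝ, 0 < ε₀ ∧ ∀ A : ℝ, 1 ≤ A → ∀ ρ : ℝ, 0 < ρ → ρ * A ≤ ε₀ →
    ∃ (n : ℕ) (P I : Fin n → Set ℂ) (D : Fin n → Set E3) (S : Fin n → E3 → ℂ),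
      (∀ k, MeasurableSet (P k)) ∧ (∀ k, MeasurableSet (D k)) ∧ (∀ k, MeasurableSet (I k)) ∧
      (∀ k, Measurable (S k)) ∧ (∀ k k', k ≠ k' → Disjoint (P k) (P k')) ∧
      (∀ k, P k ⊆ Fd) ∧ (∀ k, D k ⊆ sphere 0 1) ∧ (∀ k, MapsTo (S k) (D k) (P k)) ∧
      (∀ k, ∀ y ∈ D k, ∀ y' ∈ D k,
        (1 - η) / (Real.sqrt (4 * Real.pi) * A) * ‖y - y'‖ ≤ ‖S k y - S k y'‖) ∧
      (∀ k (B : Set ℂ), MeasurableSet B →
        sig.real (D k ∩ S k ⁻¹' B) = A ^ 2 * tau.real (B ∩ P k)) ∧
      (∀ k, ∀ x ∈ P k, ∀ y ∈ P k, |(x - y).re| ≤ 1 / 2 ∧ |(x - y).im| ≤ 1 / 2) ∧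
      (∀ k, I k ⊆ P k) ∧ (∀ k, ∀ x ∈ I k, ∀ y, ‖x - y‖ < ρ → y ∈ P k) ∧
      1 - κ ≤ ∑ k, tau.real (I k) := by
  have hπ := Real.pi_pos
  set R := Real.sqrt (4 * Real.pi) with hR
  have hR0 : 0 < R := Real.sqrt_pos.2 (by positivity)
  have hR2 : R ^ 2 = 4 * Real.pi := Real.sq_sqrt (by positivity)
  have hR3 : 3 < R := by
    have : (3 : ℝ) ^ 2 < R ^ 2 := by rw [hR2]; linarith only [Real.pi_gt_three]
    exact lt_of_pow_lt_pow_left₀ 2 hR0.le this
  refine ⟨min κ 1 * η / (32 * R), by positivity, ?_⟩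
  intro A hA ρ hρ hρA
  have hA0 : 0 < A := by linarith
  set X := 4 * R * A / η with hX
  have hRA : 3 ≤ R * A := by
    have := mul_le_mul hR3.le hA zero_le_one hR0.le
    linarith only [this]
  have hX1 : 1 ≤ X := by
    rw [hX, le_div_iff₀ hη]
    linarith only [hRA, hη1]
  have hX2 : 2 ≤ X := by
    rw [hX, le_div_iff₀ hη]
    linarith only [hRA, hη1]
  obtain ⟨hN0, hN1, hN2⟩ := ceil_bounds hX1
  set N := ⌈X⌉₊ with hN
  have hNr : (0 : ℝ) < N := by exact_mod_cast hN0
  set u : ℝ := 1 / (2 * N) with hu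
  have hu0 : 0 < u := by positivity
  have hNu : 2 * (N : ℝ) * u = 1 := by rw [hu]; field_simp
  set l : ℝ := 1 / (R * A) with hl
  have hl0 : 0 < l := by positivity
  set v : ℝ := R * A * u with hv
  have hv0 : 0 < v := by positivity
  have hlv : l * v = u := by rw [hl, hv]; field_simp
  have hv8 : v ≤ η / 8 := by
    have h1 : X * u ≤ 1 / 2 := by
      have := mul_le_mul_of_nonneg_right hN1 hu0.le
      linarith only [this, hNu]
    have h2 : 4 * v ≤ η * (X * u) := by
      rw [hX, hv]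
      apply le_of_eq
      field_simp
    have := mul_le_mul_of_nonneg_left h1 hη.le
    linarith only [this, h2]
  -- size of ρ
  have hρ1 : ρ * (32 * R * A) ≤ min κ 1 * η := by
    rw [le_div_iff₀ (by positivity)] at hρA
    linarith only [hρA]
  have hρ2 : 4 * N * ρ ≤ min κ 1 := by
    have h1 : 4 * (N : ℝ) * ρ ≤ 8 * X * ρ := by
      have := mul_le_mul_of_nonneg_right hN2 hρ.le
      linarith only [this]
    have h2 : 8 * X * ρ = ρ * (32 * R * A) / η := by rw [hX]; field_simp; ring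
    rw [h2] at h1
    refine h1.trans ?_
    rw [div_le_iff₀ hη]
    exact hρ1
  have hρ3 : ρ < u := by
    have h1 : 4 * N * ρ ≤ 1 := hρ2.trans (min_le_right _ _)
    have h2 : 4 * N * ρ < 4 * N * u := by linarith only [h1, hNu]
    have h3 : (0 : ℝ) < 4 * N := by positivity
    exact lt_of_mul_lt_mul_left h2 h3.le
  -- the domain
  have hQ : Rect 0 0 v v ⊆ Q0 := by
    rintro ⟨x, y⟩ ⟨⟨h1, h2⟩, h3, h4⟩
    simp only [zero_sub, zero_add] at h1 h2 h3 h4
    refine ⟨⟨?_, ?_⟩, ?_, ?_⟩
    · have := Real.pi_gt_three; simp only; linarith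
    · have := Real.pi_gt_three; simp only; linarith
    · simp only; linarith
    · simp only; linarith
  set c : ℕ → ℝ := fun i => -(1 / 2) + (2 * i + 1) * u with hc
  have hcl : ∀ i < N, -(1 / 2) ≤ c i - u ∧ c i + u ≤ 1 / 2 := by
    intro i hi
    have h1 : ((i : ℝ) + 1) ≤ N := by exact_mod_cast hi
    refine ⟨?_, ?_⟩
    · simp only [hc]
      have : (0 : ℝ) ≤ i * u := by positivity
      linarith only [this]
    · simp only [hc]
      have := mul_le_mul_of_nonneg_right h1 hu0.le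
      linarith only [this, hNu]
  have hPF : ∀ i < N, ∀ j < N, Sqr (c i) (c j) u ⊆ Fd := by
    intro i hi j hj x ⟨⟨h1, h2⟩, h3, h4⟩
    have h5 := hcl i hi
    have h6 := hcl j hj
    exact ⟨⟨by linarith, by linarith⟩, by linarith, by linarith⟩
  have hIP : ∀ p q : ℝ, SqI p q (u - ρ) ⊆ Sqr p q u := by
    intro p q x ⟨⟨h1, h2⟩, h3, h4⟩
    exact ⟨⟨by linarith, by linarith⟩, by linarith, by linarith⟩
  have htau : ∀ E : Set ℂ, MeasurableSet E → E ⊆ Fd → tau.real E = (volume : Measure ℂ).real E := by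
    intro E hE hEF
    rw [tau, Measure.real, Measure.restrict_apply hE, inter_eq_left.2 hEF, Measure.real]
  refine ⟨N * N, fun k => Sqr (c (finProdFinEquiv.symm k).1) (c (finProdFinEquiv.symm k).2) u,
    fun k => SqI (c (finProdFinEquiv.symm k).1) (c (finProdFinEquiv.symm k).2) (u - ρ),
    fun _ => pc (Rect 0 0 v v),
    fun k y => Psi (c (finProdFinEquiv.symm k).1) (c (finProdFinEquiv.symm k).2) l (co y),
    fun k => measurableSet_Sqr _ _ _, fun _ => measurableSet_pc (measurableSet_Rect _ _ _ _),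
    fun k => measurableSet_SqI _ _ _, fun k => (measurable_Psi _ _ _).comp measurable_co,
    ?_, fun k => hPF _ (Fin.is_lt _) _ (Fin.is_lt _), fun _ => pc_subset _, ?_, ?_, ?_, ?_,
    fun k => hIP _ _, ?_, ?_⟩
  · -- disjointness
    intro k k' hk
    rw [Set.disjoint_left]
    rintro x ⟨h1, h2⟩ ⟨h3, h4⟩
    apply hk
    apply finProdFinEquiv.symm.injective
    exact Prod.ext (Fin.ext (grid_disj' hu0 h1 h3)) (Fin.ext (grid_disj' hu0 h2 h4))
  · -- maps to
    rintro k y ⟨-, ⟨h1, h2⟩, h3, h4⟩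
    simp only [zero_sub, zero_add] at h1 h2 h3 h4
    have e : ∀ t : ℝ, -v < t → t ≤ v → -u < l * t ∧ l * t ≤ u := by
      intro t ht1 ht2
      constructor
      · rw [← hlv]
        have := mul_lt_mul_of_pos_left ht1 hl0
        linarith only [this]
      · rw [← hlv]
        exact mul_le_mul_of_nonneg_left ht2 hl0.le
    obtain ⟨a1, a2⟩ := e _ h1 h2
    obtain ⟨a3, a4⟩ := e _ h3 h4
    refine ⟨⟨?_, ?_⟩, ?_, ?_⟩
    · simp only [Psi]; linarith
    · simp only [Psi]; linarith
    · simp only [Psi]; linarith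
    · simp only [Psi]; linarith
  · -- distances
    intro k y hy y' hy'
    have hp := eq_pt_co hQ hy
    have hp' := eq_pt_co hQ hy'
    have hc1 := hy.2
    have hc2 := hy'.2
    obtain ⟨-, h3, h4⟩ := hc1
    obtain ⟨-, h3', h4'⟩ := hc2
    simp only [zero_sub, zero_add] at h3 h4 h3' h4'
    have hle := norm_pt_sub_le (v := co y) (v' := co y') (ε := v) hv0.le (by linarith)
      (abs_le.2 ⟨h3.le, h4⟩) (abs_le.2 ⟨h3'.le, h4'⟩)
    rw [hp, hp'] at hle
    have hn : ‖Psi (c (finProdFinEquiv.symm k).1) (c (finProdFinEquiv.symm k).2) l (co y) -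
        Psi (c (finProdFinEquiv.symm k).1) (c (finProdFinEquiv.symm k).2) l (co y')‖ ^ 2 =
        l ^ 2 * (((co y).1 - (co y').1) ^ 2 + ((co y).2 - (co y').2) ^ 2) := by
      rw [Complex.sq_norm, Complex.normSq_apply, Complex.sub_re, Complex.sub_im]
      simp only [Psi]
      ring
    refine abs_le_of_sq_le_sq' ?_ (norm_nonneg _) |>.2
    have e1 : ((1 - η) / (R * A) * ‖y - y'‖) ^ 2 = l ^ 2 * ((1 - η) ^ 2 * ‖y - y'‖ ^ 2) := by
      rw [hl]; field_simp
    rw [e1]
    refine le_trans ?_ hn.ge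
    refine mul_le_mul_of_nonneg_left ?_ (sq_nonneg _)
    have hv2 : v ^ 2 ≤ η / 8 := by
      have := mul_le_mul_of_nonneg_left (by linarith only [hv8, hη1] : v ≤ 1) hv0.le
      linarith only [this, hv8]
    have h5 : (1 - η) ^ 2 ≤ 1 - v ^ 2 := by
      have := mul_le_mul_of_nonneg_left hη1.le hη.le
      linarith only [this, hv2, hη]
    have h6 : (1 - η) ^ 2 * ‖y - y'‖ ^ 2 ≤ (1 - v ^ 2) * ‖y - y'‖ ^ 2 :=
      mul_le_mul_of_nonneg_right h5 (sq_nonneg _)
    have h7 : (1 - v ^ 2) * ((co y).1 - (co y').1) ^ 2 ≤ ((co y).1 - (co y').1) ^ 2 := by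
      linarith only [mul_nonneg (sq_nonneg v) (sq_nonneg ((co y).1 - (co y').1))]
    linarith
  · -- areas
    intro k B hB
    have hi := Fin.is_lt (finProdFinEquiv.symm k).1
    have hj := Fin.is_lt (finProdFinEquiv.symm k).2
    set p := c (finProdFinEquiv.symm k).1
    set q := c (finProdFinEquiv.symm k).2
    have hm : Measurable (fun y => Psi p q l (co y)) := (measurable_Psi _ _ _).comp measurable_co
    rw [inter_comm, sig_inter_pc hQ (measurableSet_Rect _ _ _ _) (hm hB)]
    have e1 : pt ⁻¹' ((fun y => Psi p q l (co y)) ⁻¹' B) ∩ Rect 0 0 v v =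
        Psi p q l ⁻¹' (B ∩ Sqr p q u) := by
      have key : ∀ w : ℝ × ℝ, w ∈ Rect 0 0 v v ↔ Psi p q l w ∈ Sqr p q u := by
        rintro ⟨x, y⟩
        have e : ∀ p t : ℝ, (-v < t ∧ t ≤ v) ↔ (p - u ≤ p - l * t ∧ p - l * t < p + u) := by
          intro p t
          rw [← hlv]
          constructor
          · rintro ⟨h1, h2⟩
            have g1 := mul_lt_mul_of_pos_left h1 hl0
            have g2 := mul_le_mul_of_nonneg_left h2 hl0.le
            exact ⟨by linarith only [g2], by linarith only [g1]⟩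
          · rintro ⟨h1, h2⟩
            constructor
            · by_contra hcon
              push Not at hcon
              have := mul_le_mul_of_nonneg_left hcon hl0.le
              linarith only [this, h2]
            · by_contra hcon
              push Not at hcon
              have := mul_lt_mul_of_pos_left hcon hl0
              linarith only [this, h1]
        simp only [Rect, mem_prod, mem_Ioc, zero_sub, zero_add, Sqr, Psi, mem_setOf_eq, mem_Ico]
        rw [e p x, e q y]
      ext w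
      constructor
      · rintro ⟨h1, h2⟩
        simp only [mem_preimage] at h1
        rw [co_pt (hQ h2)] at h1
        exact ⟨h1, (key w).1 h2⟩
      · rintro ⟨h1, h2⟩
        have h3 := (key w).2 h2
        refine ⟨?_, h3⟩
        simp only [mem_preimage]
        rw [co_pt (hQ h3)]
        exact h1
    rw [e1, volume_preimage_Psi p q hl0 (hB.inter (measurableSet_Sqr _ _ _)),
      htau _ (hB.inter (measurableSet_Sqr _ _ _)) (inter_subset_right.trans (hPF _ hi _ hj))]
    have e2 : (4 * Real.pi)⁻¹ * (l ^ 2)⁻¹ = A ^ 2 := by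
      rw [hl, ← hR2]; field_simp
    rw [← mul_assoc, e2]
  · -- diameter
    rintro k x ⟨⟨h1, h2⟩, h3, h4⟩ y ⟨⟨h5, h6⟩, h7, h8⟩
    have hu4 : u ≤ 1 / 4 := by
      have := mul_le_mul_of_nonneg_right (hX2.trans hN1) hu0.le
      linarith only [this, hNu]
    rw [Complex.sub_re, Complex.sub_im]
    refine ⟨abs_le.2 ⟨by linarith, by linarith⟩, abs_le.2 ⟨by linarith, by linarith⟩⟩
  · -- interior
    rintro k x ⟨⟨h1, h2⟩, h3, h4⟩ y hxy
    have h5 := abs_le.1 ((Complex.abs_re_le_norm (x - y)).trans hxy.le)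
    have h6 := abs_le.1 ((Complex.abs_im_le_norm (x - y)).trans hxy.le)
    have h7 := (Complex.abs_re_le_norm (x - y)).trans_lt hxy
    have h8 := (Complex.abs_im_le_norm (x - y)).trans_lt hxy
    rw [abs_lt, Complex.sub_re] at h7
    rw [abs_lt, Complex.sub_im] at h8
    exact ⟨⟨by linarith, by linarith⟩, by linarith, by linarith⟩
  · -- total area
    have e1 : ∀ k : Fin (N * N), tau.real (SqI (c (finProdFinEquiv.symm k).1)
        (c (finProdFinEquiv.symm k).2) (u - ρ)) = (2 * (u - ρ)) ^ 2 := by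
      intro k
      rw [htau _ (measurableSet_SqI _ _ _) ((hIP _ _).trans (hPF _ (Fin.is_lt _) _ (Fin.is_lt _))),
        volume_SqI _ _ (by linarith)]
    rw [Finset.sum_congr rfl fun k _ => e1 k, Finset.sum_const, Finset.card_univ, Fintype.card_fin,
      nsmul_eq_mul, Nat.cast_mul]
    have e2 : (N : ℝ) * N * (2 * (u - ρ)) ^ 2 = (1 - 2 * N * ρ) ^ 2 := by
      have : (1 - 2 * N * ρ) = 2 * N * (u - ρ) := by rw [← hNu]; ring
      rw [this]; ring
    rw [e2]
    have h1 : 4 * N * ρ ≤ κ := hρ2.trans (min_le_left _ _)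
    linarith only [sq_nonneg ((N : ℝ) * ρ), h1]

end Pool.Agent.Helper42.RZ2.R7
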