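import Pool.Agent.Helper42.RZ2.St.R1b
import Pool.Agent.Helper42.RZ2.St.R8
import Pool.Agent.Helper42.RZ.S11

/-! # RZ2-R9: upper bound by pasting pieces of a periodic configuration, `M` planes -/

set_option autoImplicit false

open MeasureTheory Set Metric Filter Topology
open scoped ENNReal

namespace Pool.Agent.Helper42.RZ2.R9

open Pool.Agent.Helper42.RZ Pool.Agent.Helper42.RZ.S11

/-- the probability space: a shift and a point of the sphere -/
noncomputable def Pm : Measure ((ℝ × ℝ) × E3) := ((volume : Measure (ℝ × ℝ)).restrict Sq).prod sig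

instance : IsProbabilityMeasure ((volume : Measure (ℝ × ℝ)).restrict Sq) :=
  ⟨by rw [Measure.restrict_apply_univ, volume_Sq]⟩

instance : IsProbabilityMeasure Pm := by unfold Pm; infer_instance

/-- the position of a point -/
noncomputable def pos (a b : ℂ) {m : ℕ} (y : Fin m → ℂ) (c : Fin m × (ℤ × ℤ)) (u : ℝ × ℝ) : ℂ :=
  y c.1 + lv a b c.2 + (u.1 * a + u.2 * b)

theorem measurable_pos (a b : ℂ) {m : ℕ} (y : Fin m → ℂ) (c : Fin m × (ℤ × ℤ)) :
    Measurable (pos a b y c) := by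
  unfold pos
  fun_prop

theorem lv_sub (a b : ℂ) (k k' : ℤ × ℤ) : lv a b k - lv a b k' = lv a b (k - k') := by
  simp only [lv, Prod.fst_sub, Prod.snd_sub, Int.cast_sub]
  ring

theorem pos_sub (a b : ℂ) {m : ℕ} (y : Fin m → ℂ) (c c' : Fin m × (ℤ × ℤ)) (u : ℝ × ℝ) :
    pos a b y c u - pos a b y c' u = y c.1 - y c'.1 + lv a b (c.2 - c'.2) := by
  rw [← lv_sub, pos, pos]
  ring

/-- the difference of two points -/
noncomputable def df (a b : ℂ) {m : ℕ} (y : Fin m → ℂ) (c c' : Fin m × (ℤ × ℤ)) : ℂ :=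
  y c.1 - y c'.1 + lv a b (c.2 - c'.2)

theorem Pm_fst {B : Set (ℝ × ℝ)} (hB : MeasurableSet B) :
    Pm.real {ω | ω.1 ∈ B} = (volume : Measure (ℝ × ℝ)).real {u | u ∈ Sq ∧ u ∈ B} := by
  have h := (measurePreserving_fst (μ := (volume : Measure (ℝ × ℝ)).restrict Sq)
    (ν := sig)).measure_preimage hB.nullMeasurableSet
  rw [Measure.real, Measure.real]
  congr 1
  rw [Measure.restrict_apply hB] at h
  rw [Pm]
  refine Eq.trans h ?_
  congr 1
  ext u
  exact and_comm

theorem Pm_snd {B : Set E3} (hB : MeasurableSet B) :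
    Pm.real {ω | ‖ω.2‖ = 1 ∧ ω.2 ∈ B} = sig.real B := by
  have hs : MeasurableSet {x : E3 | ‖x‖ = 1 ∧ x ∈ B} :=
    (measurableSet_eq_fun measurable_norm measurable_const).inter hB
  have h := (measurePreserving_snd (μ := (volume : Measure (ℝ × ℝ)).restrict Sq)
    (ν := sig)).measure_preimage hs.nullMeasurableSet
  have h2 : sig {x : E3 | ‖x‖ = 1 ∧ x ∈ B} = sig B := by
    refine measure_congr ?_
    filter_upwards [ae_norm_sig] with x hx
    simp only [eq_iff_iff]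
    change (‖x‖ = 1 ∧ x ∈ B) ↔ x ∈ B
    simp [hx]
  rw [Measure.real, Measure.real, ← h2]
  congr 1

theorem exists_sep_fin {n m : ℕ} {a b : ℂ} {y : Fin m → ℂ}
    (hY : ∀ i j, ∀ k : ℤ × ℤ, y i - y j + lv a b k = 0 → i = j ∧ k = 0)
    {c : Fin n → Fin m × (ℤ × ℤ)} (hc : Function.Injective c) :
    ∃ δ : ℝ, 0 < δ ∧ ∀ i j, i ≠ j → δ ≤ ‖df a b y (c i) (c j)‖ := by
  classical
  have hpos : ∀ i j, i ≠ j → 0 < ‖df a b y (c i) (c j)‖ := by
    intro i j hij
    rw [norm_pos_iff]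
    intro h
    obtain ⟨h1, h2⟩ := hY _ _ _ h
    exact hij (hc (Prod.ext h1 (sub_eq_zero.1 h2)))
  rcases (Finset.univ : Finset (Fin n)).offDiag.eq_empty_or_nonempty with h | h
  · refine ⟨1, one_pos, fun i j hij => ?_⟩
    have : (i, j) ∈ (Finset.univ : Finset (Fin n)).offDiag := by simp [hij]
    rw [h] at this
    exact absurd this (Finset.notMem_empty _)
  · obtain ⟨p, hp, hmin⟩ := Finset.exists_min_image _
      (fun p : Fin n × Fin n => ‖df a b y (c p.1) (c p.2)‖) h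
    exact ⟨‖df a b y (c p.1) (c p.2)‖, hpos _ _ (Finset.mem_offDiag.1 hp).2.2,
      fun i j hij => hmin (i, j) (by simp [hij])⟩

theorem pointwise {s : ℝ} (h0 : 0 < s) (h2 : s < 2) {η ρ : ℝ} (hη1 : η < 1)
    {m N₁ n' : ℕ} (hN₁ : 1 ≤ N₁) (hn' : 1 ≤ n') {a b : ℂ}
    {y : Fin m → ℂ} (hY : ∀ i j, ∀ k : ℤ × ℤ, y i - y j + lv a b k = 0 → i = j ∧ k = 0)
    {c : Fin n' → Fin m × (ℤ × ℤ)} (hc : Function.Injective c) {n : ℕ}
    {P I : Fin n → Set E3} {D : Fin n → Set ℂ} {S : Fin n → ℂ → E3}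
    (hP : ∀ k, MeasurableSet (P k)) (hD : ∀ k, MeasurableSet (D k)) (hI : ∀ k, MeasurableSet (I k))
    (hS : ∀ k, Measurable (S k)) (hPd : ∀ k k', k ≠ k' → Disjoint (P k) (P k'))
    (hPs : ∀ k, P k ⊆ sphere 0 1) (hSm : ∀ k, MapsTo (S k) (D k) (P k))
    (hSd : ∀ k, ∀ y ∈ D k, ∀ y' ∈ D k, (1 - η) * ‖y - y'‖ ≤ ‖S k y - S k y'‖)
    (hSa : ∀ k (B : Set E3), MeasurableSet B →
      ∑ i, Pm.real {ω | pos a b y (c i) ω.1 ∈ D k ∩ S k ⁻¹' B} = N₁ * sig.real (B ∩ P k))
    (hIP : ∀ k, I k ⊆ P k) (hρ : ∀ k, ∀ x ∈ I k, ∀ y, ‖y‖ = 1 → ‖x - y‖ < ρ → y ∈ P k)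
    {Q : Fin N₁ → Set E3} {u : Fin N₁ → E3 → E3} (hQ : ∀ j, MeasurableSet (Q j))
    (hu : ∀ j, Measurable (u j)) (hQd : ∀ j j', j ≠ j' → Disjoint (Q j) (Q j'))
    (hun : ∀ j y, ‖y‖ = 1 → ‖u j y‖ = 1)
    (hua : ∀ j (B : Set E3), MeasurableSet B → sig.real (u j ⁻¹' B) = N₁ * sig.real (B ∩ Q j))
    {M : ℕ} (pl : Fin M → E3 × ℝ) (β : ℝ)
    (hβ : ∀ N' : ℕ, β ≤ minE s N' - 2 * N₁ * Cc s * N' + Cc s * (N₁ : ℝ) ^ 2) :
    β ≤ ∑ k, ∑ p ∈ (Finset.univ : Finset (Fin n')).offDiag,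
        ∫ ω, ({ω : (ℝ × ℝ) × E3 | pos a b y (c p.1) ω.1 ∈ D k} ∩
            {ω : (ℝ × ℝ) × E3 | pos a b y (c p.2) ω.1 ∈ D k} ∩
          {ω : (ℝ × ℝ) × E3 | Same pl (S k (pos a b y (c p.1) ω.1))
            (S k (pos a b y (c p.2) ω.1))}).indicator
          (fun ω => K s ‖S k (pos a b y (c p.1) ω.1) - S k (pos a b y (c p.2) ω.1)‖) ω ∂Pm -
      (N₁ : ℝ) ^ 2 * ∑ k, ∫ q, {q : E3 × E3 | q.1 ∈ I k ∧ ‖q.1 - q.2‖ < ρ ∧
        Same pl q.1 q.2}.indicator (fun q => K s ‖q.1 - q.2‖) q ∂(sig.prod sig) := by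
  classical
  have hb : 0 < 1 - η := by linarith
  set i0 : Fin n' := ⟨0, hn'⟩ with hi0
  set R : Set E3 := sphere 0 1 \ ⋃ k, P k with hR
  have hRm : MeasurableSet R := isClosed_sphere.measurableSet.diff (MeasurableSet.iUnion hP)
  let Y : ((Fin n × (Fin M → Bool)) ⊕ Fin N₁) → Fin n' → ((ℝ × ℝ) × E3) → E3 := fun l i ω =>
    Sum.elim (fun ke : Fin n × (Fin M → Bool) => S ke.1 (pos a b y (c i) ω.1))
      (fun j => u j ω.2) l
  let C : ((Fin n × (Fin M → Bool)) ⊕ Fin N₁) → Set E3 := fun l =>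
    Sum.elim (fun ke : Fin n × (Fin M → Bool) => P ke.1 ∩ cell pl ke.2) (fun j => R ∩ Q j) l
  let Ev : ((Fin n × (Fin M → Bool)) ⊕ Fin N₁) → Fin n' → Set ((ℝ × ℝ) × E3) := fun l i =>
    Sum.elim (fun ke : Fin n × (Fin M → Bool) =>
        {ω | ω ∈ {ω : (ℝ × ℝ) × E3 | pos a b y (c i) ω.1 ∈ D ke.1} ∧
          S ke.1 (pos a b y (c i) ω.1) ∈ cell pl ke.2})
      (fun j => if i = i0 then {ω | ‖ω.2‖ = 1 ∧ ω.2 ∈ u j ⁻¹' (R ∩ Q j)} else ∅) l
  have hpm : ∀ i, Measurable fun ω : (ℝ × ℝ) × E3 => pos a b y (c i) ω.1 := fun i =>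
    (measurable_pos a b y (c i)).comp measurable_fst
  have hSg : ∀ k i, Measurable fun ω : (ℝ × ℝ) × E3 => S k (pos a b y (c i) ω.1) := fun k i =>
    (hS k).comp (hpm i)
  have hCm : ∀ l, MeasurableSet (C l) := by
    rintro (⟨k, e⟩ | j)
    · exact (hP k).inter (measurableSet_cell pl e)
    · exact hRm.inter (hQ j)
  have hCd : ∀ l l', l ≠ l' → Disjoint (C l) (C l') := by
    rintro (⟨k, e⟩ | j) (⟨k', e'⟩ | j') hl
    · by_cases hk : k = k'
      · subst hk
        have he : e ≠ e' := fun he => hl (by rw [he])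
        refine Set.disjoint_left.2 fun z hz hz' => he ?_
        exact (mem_cell.1 hz.2).trans (mem_cell.1 hz'.2).symm
      · exact (hPd k k' hk).mono inter_subset_left inter_subset_left
    · refine Set.disjoint_left.2 fun z hz hz' => hz'.1.2 (mem_iUnion.2 ⟨k, hz.1⟩)
    · refine Set.disjoint_left.2 fun z hz hz' => hz.1.2 (mem_iUnion.2 ⟨k', hz'.1⟩)
    · have hj : j ≠ j' := fun hj => hl (by rw [hj])
      exact (hQd j j' hj).mono inter_subset_right inter_subset_right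
  obtain ⟨δ, hδ, hδx⟩ := exists_sep_fin hY hc
  have hsepk : ∀ k i i', i ≠ i' → ∀ ω : (ℝ × ℝ) × E3, pos a b y (c i) ω.1 ∈ D k →
      pos a b y (c i') ω.1 ∈ D k → (1 - η) * ‖df a b y (c i) (c i')‖ ≤
        ‖S k (pos a b y (c i) ω.1) - S k (pos a b y (c i') ω.1)‖ := by
    intro k i i' hi ω h1 h3
    have h4 := hSd k _ h1 _ h3
    rwa [pos_sub] at h4
  have key := paste h0 h2 Pm n' Y Ev C N₁ ?_ ?_ hCm hCd ?_ ?_ ?_ ?_ β hβ
  · refine key.trans (sub_le_sub ?_ (mul_le_mul_of_nonneg_left ?_ (by positivity)))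
    · rw [Fintype.sum_sum_type, Fintype.sum_prod_type]
      have hz : ∀ j : Fin N₁, ∑ p ∈ (Finset.univ : Finset (Fin n')).offDiag,
          ∫ ω in Ev (Sum.inr j) p.1 ∩ Ev (Sum.inr j) p.2,
            K s ‖Y (Sum.inr j) p.1 ω - Y (Sum.inr j) p.2 ω‖ ∂Pm = 0 := by
        intro j
        refine Finset.sum_eq_zero fun p hp => ?_
        have hp1 : p.1 ≠ p.2 := (Finset.mem_offDiag.1 hp).2.2
        have hE : Ev (Sum.inr j) p.1 ∩ Ev (Sum.inr j) p.2 = ∅ := by
          by_cases h : p.1 = i0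
          · have h' : p.2 ≠ i0 := fun h' => hp1 (h.trans h'.symm)
            simp only [Ev, Sum.elim_inr, h', if_false, inter_empty]
          · simp only [Ev, Sum.elim_inr, h, if_false, empty_inter]
        rw [hE, setIntegral_empty]
      rw [Finset.sum_eq_zero (fun j _ => hz j), add_zero]
      refine Finset.sum_le_sum fun k _ => ?_
      rw [Finset.sum_comm]
      refine Finset.sum_le_sum fun p hp => le_of_eq ?_
      have hp1 : p.1 ≠ p.2 := (Finset.mem_offDiag.1 hp).2.2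
      have hd : 0 < (1 - η) * ‖df a b y (c p.1) (c p.2)‖ :=
        mul_pos hb (hδ.trans_le (hδx _ _ hp1))
      refine sum_cells Pm (hSg k p.1) (hSg k p.2)
        (T := {ω : (ℝ × ℝ) × E3 | pos a b y (c p.1) ω.1 ∈ D k})
        (T' := {ω : (ℝ × ℝ) × E3 | pos a b y (c p.2) ω.1 ∈ D k}) (hpm _ (hD k)) (hpm _ (hD k))
        (f := fun ω => K s ‖S k (pos a b y (c p.1) ω.1) - S k (pos a b y (c p.2) ω.1)‖) ?_ pl
      refine Measure.integrableOn_of_bounded
        (M := K s ((1 - η) * ‖df a b y (c p.1) (c p.2)‖)) (measure_ne_top _ _) ?_ ?_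
      · exact ((measurable_K s).comp ((hSg k p.1).sub (hSg k p.2)).norm).aestronglyMeasurable
      · refine (ae_restrict_iff' ((hpm _ (hD k)).inter (hpm _ (hD k)))).2
          (Eventually.of_forall fun ω hω => ?_)
        rw [Real.norm_of_nonneg (K_nonneg (norm_nonneg _))]
        exact K_anti h0 hd (hsepk k _ _ hp1 ω hω.1 hω.2)
    · rw [Fintype.sum_sum_type, Fintype.sum_prod_type]
      have hz : 0 ≤ ∑ j : Fin N₁, ∫ x in C (Sum.inr j), ∫ z in C (Sum.inr j),
          K s ‖x - z‖ ∂sig ∂sig := Finset.sum_nonneg fun j _ =>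
        integral_nonneg fun x => integral_nonneg fun z => K_nonneg (norm_nonneg _)
      refine le_trans ?_ (le_add_of_nonneg_right hz)
      exact Finset.sum_le_sum fun k _ => U_low h2 (hP k) (hI k) (hIP k) (hρ k) pl
  · rintro (⟨k, e⟩ | j) i
    · exact hSg k i
    · exact (hu j).comp measurable_snd
  · rintro (⟨k, e⟩ | j) i
    · exact (hpm i (hD k)).inter (hSg k i (measurableSet_cell pl e))
    · by_cases h : i = i0
      · simp only [Ev, Sum.elim_inr, h, if_true]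
        exact (measurableSet_eq_fun measurable_snd.norm measurable_const).inter
          (measurable_snd (hu j (hCm (Sum.inr j))))
      · simp only [Ev, Sum.elim_inr, h, if_false]
        exact MeasurableSet.empty
  · rintro (⟨k, e⟩ | j) i ω hω
    · have h1 := hSm k hω.1
      exact ⟨mem_sphere_zero_iff_norm.1 (hPs k h1), h1, hω.2⟩
    · by_cases h : i = i0
      · simp only [Ev, Sum.elim_inr, h, if_true] at hω
        exact ⟨hun j _ hω.1, hω.2⟩
      · simp only [Ev, Sum.elim_inr, h, if_false] at hω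
        exact absurd hω (notMem_empty _)
  · refine ⟨(1 - η) * δ, mul_pos hb hδ, ?_⟩
    rintro (⟨k, e⟩ | j) i i' hi ω ⟨hω, hω'⟩
    · exact (mul_le_mul_of_nonneg_left (hδx i i' hi) hb.le).trans (hsepk k i i' hi ω hω.1 hω'.1)
    · exfalso
      by_cases h : i = i0
      · have h' : i' ≠ i0 := fun h' => hi (h.trans h'.symm)
        simp only [Ev, Sum.elim_inr, h', if_false] at hω'
        exact hω'
      · simp only [Ev, Sum.elim_inr, h, if_false] at hω
        exact hω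
  · rintro (⟨k, e⟩ | j) B hB
    · have h1 : ∀ i, Ev (Sum.inl (k, e)) i ∩ Y (Sum.inl (k, e)) i ⁻¹' B =
          {ω | pos a b y (c i) ω.1 ∈ D k ∩ S k ⁻¹' (B ∩ cell pl e)} := by
        intro i
        ext ω
        simp only [Ev, Y, Sum.elim_inl, mem_inter_iff, mem_preimage, Set.mem_ofPred_eq]
        tauto
      simp only [h1]
      rw [hSa k _ (hB.inter (measurableSet_cell pl e))]
      congr 2
      simp only [C, Sum.elim_inl]
      ext z
      simp only [mem_inter_iff]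
      tauto
    · rw [Finset.sum_eq_single i0]
      · have h2 : Ev (Sum.inr j) i0 ∩ Y (Sum.inr j) i0 ⁻¹' B =
            {ω | ‖ω.2‖ = 1 ∧ ω.2 ∈ u j ⁻¹' (C (Sum.inr j) ∩ B)} := by
          ext ω
          simp only [Ev, Y, C, Sum.elim_inr, if_true, mem_inter_iff, mem_preimage,
            Set.mem_ofPred_eq]
          tauto
        rw [h2, Pm_snd (hu j ((hCm _).inter hB)), hua j _ ((hCm _).inter hB)]
        congr 2
        simp only [C, Sum.elim_inr]
        ext z
        simp only [mem_inter_iff]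
        tauto
      · intro i _ hi
        simp only [Ev, Sum.elim_inr, hi, if_false, empty_inter, measureReal_empty]
      · intro h; exact absurd (Finset.mem_univ _) h
  · have h1 : ∀ j, sig.real (Q j) = (N₁ : ℝ)⁻¹ := by
      intro j
      have h2 := hua j univ MeasurableSet.univ
      rw [preimage_univ, univ_inter, probReal_univ] at h2
      have h3 : (N₁ : ℝ) ≠ 0 := by
        have : N₁ ≠ 0 := by omega
        exact_mod_cast this
      field_simp
      linarith
    have h2 : sig.real (⋃ j, Q j) = 1 := by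
      rw [measureReal_iUnion_fintype (fun j j' h => hQd j j' h) hQ, Finset.sum_congr rfl
        fun j _ => h1 j, Finset.sum_const, Finset.card_univ, Fintype.card_fin, nsmul_eq_mul]
      refine mul_inv_cancel₀ ?_
      have : N₁ ≠ 0 := by omega
      exact_mod_cast this
    rw [← measureReal_iUnion_fintype (fun j j' h => hCd j j' h) hCm]
    have h3 : sphere (0 : E3) 1 ∩ ⋃ j, Q j ⊆ ⋃ l, C l := by
      rintro z ⟨hz, hzQ⟩
      by_cases h : z ∈ ⋃ k, P k
      · obtain ⟨k, hk⟩ := mem_iUnion.1 h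
        exact mem_iUnion.2 ⟨Sum.inl (k, lab pl z), hk, mem_cell.2 rfl⟩
      · obtain ⟨j, hj⟩ := mem_iUnion.1 hzQ
        exact mem_iUnion.2 ⟨Sum.inr j, ⟨hz, h⟩, hj⟩
    refine le_antisymm measureReal_le_one ?_
    have h4 : sig.real (sphere (0 : E3) 1 ∩ ⋃ j, Q j) = 1 := by
      rw [sig_sphere, h2]
    rw [← h4]
    exact measureReal_mono h3

theorem sum_fiber {n m : ℕ} (φ : Fin n → Fin m) (f : Fin n → ℝ) :
    ∑ i, f i = ∑ j, ∑ i, if φ i = j then f i else 0 := by
  classical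
  rw [Finset.sum_comm]
  refine Finset.sum_congr rfl fun i _ => ?_
  rw [Finset.sum_ite_eq]
  simp

end Pool.Agent.Helper42.RZ2.R9

namespace Pool.Agent.Helper42.RZ2

open Pool.Agent.Helper42.RZ Pool.Agent.Helper42.RZ.S11 R9

theorem flat_M {s : ℝ} (h0 : 0 < s) (h2 : s < 2) {η κ : ℝ} (hη : 0 < η) (hη1 : η < 1)
    (hκ : 0 < κ) : ∃ ε₀ : ℝ, 0 < ε₀ ∧ ∀ ρ : ℝ, 0 < ρ → ρ ≤ ε₀ →
    ∀ (m : ℕ) (a b : ℂ) (y : Fin m → ℂ) (N₁ : ℕ), 1 ≤ m → 1 ≤ N₁ →
    |dt a b| * N₁ = 4 * Real.pi * m →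
    (∀ i j, ∀ k : ℤ × ℤ, y i - y j + lv a b k = 0 → i = j ∧ k = 0) →
    ∀ T : Finset (Fin m × Fin m × (ℤ × ℤ)),
    (∀ q, q ∈ T ↔ (1 - η) * ‖y q.1 - y q.2.1 + lv a b q.2.2‖ ≤ 2) → ∀ (M : ℕ) (β : ℝ),
    (∀ N' : ℕ, β ≤ minE s N' - 2 * N₁ * Cc s * N' + Cc s * (N₁ : ℝ) ^ 2) →
    β ≤ (N₁ : ℝ) / m * ∑ q ∈ T, K s ((1 - η) * ‖y q.1 - y q.2.1 + lv a b q.2.2‖) *
        (1 - (1 - η) * ‖y q.1 - y q.2.1 + lv a b q.2.2‖ / 4) ^ M -
      (N₁ : ℝ) ^ 2 * ((1 - κ) * ∫ r in (0 : ℝ)..ρ, K s r * (1 - r / 4) ^ M * (r / 2)) := by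
  classical
  obtain ⟨ε₀, hε₀, hpatch⟩ := exists_flat_patches hη hη1 hκ
  refine ⟨min ε₀ 2, lt_min hε₀ two_pos, ?_⟩
  intro ρ hρ hρε m a b y N₁ hm hN₁ hV hY T hT M β hβ
  have hρ2 : ρ ≤ 2 := hρε.trans (min_le_right _ _)
  have hN₁' : (0 : ℝ) < N₁ := by exact_mod_cast hN₁
  have hm' : (0 : ℝ) < m := by exact_mod_cast hm
  have hb : 0 < 1 - η := by linarith
  have hdt : dt a b ≠ 0 := by
    intro h
    rw [h, abs_zero, zero_mul] at hV
    have : 0 < 4 * Real.pi * m := by positivity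
    linarith
  have hdt' : 0 < |dt a b| := abs_pos.2 hdt
  obtain ⟨n, P, I, D, S, hP, hD, hI, hS, hPd, hPs, hDb, hSm, hSd, hSa, hIP, hρI, hIκ⟩ :=
    hpatch ρ hρ (hρε.trans (min_le_left _ _))
  obtain ⟨Q, u, hQ, hu, hQd, hun, hua⟩ := exists_sectors N₁ hN₁
  -- the points
  have hDD : Bornology.IsBounded ((⋃ k, D k) ∪ ball (0 : ℂ) 1) :=
    (Bornology.isBounded_iUnion.2 hDb).union isBounded_ball
  obtain ⟨n', c, hc, hcB⟩ := shift_points hdt y hDD
  have hmass : ∀ (B : Set ℂ), MeasurableSet B → B ⊆ (⋃ k, D k) ∪ ball (0 : ℂ) 1 → ∀ i : Fin m,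
      (∑ j, if (c j).1 = i then Pm.real {ω | pos a b y (c j) ω.1 ∈ B} else 0) =
        |dt a b|⁻¹ * (volume : Measure ℂ).real B := by
    intro B hB hBD i
    rw [← hcB i B hB hBD]
    refine Finset.sum_congr rfl fun j _ => ?_
    have h1 := Pm_fst (measurable_pos a b y (c j) hB)
    by_cases hj : (c j).1 = i
    · rw [if_pos hj, if_pos hj]
      refine h1.trans ?_
      congr 1
      ext v
      simp only [mem_preimage, Set.mem_ofPred_eq, pos, hj]
    · rw [if_neg hj, if_neg hj]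
  have hn' : 1 ≤ n' := by
    by_contra hn
    have hn0 : n' = 0 := by omega
    subst hn0
    have h1 := hmass (ball (0 : ℂ) 1) measurableSet_ball subset_union_right ⟨0, hm⟩
    rw [Finset.univ_eq_empty, Finset.sum_empty] at h1
    have h3 : 0 < (volume : Measure ℂ).real (ball (0 : ℂ) 1) := by
      rw [Measure.real]
      exact ENNReal.toReal_pos (measure_ball_pos _ _ one_pos).ne' measure_ball_lt_top.ne
    have : 0 < |dt a b|⁻¹ * (volume : Measure ℂ).real (ball (0 : ℂ) 1) := by positivity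
    linarith
  have hDsub : ∀ k, D k ⊆ (⋃ k, D k) ∪ ball (0 : ℂ) 1 := fun k =>
    (subset_iUnion D k).trans subset_union_left
  have hcst : ∀ x : ℝ, |dt a b|⁻¹ * (4 * Real.pi * x) = N₁ / m * x := by
    intro x
    have : |dt a b|⁻¹ = N₁ / (4 * Real.pi * m) := by
      rw [← hV]; field_simp
    rw [this]
    field_simp
  have hfib : ∀ k (B : Set E3), MeasurableSet B → ∀ i : Fin m,
      (∑ j, if (c j).1 = i then Pm.real {ω | pos a b y (c j) ω.1 ∈ D k ∩ S k ⁻¹' B} else 0) =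
        N₁ / m * sig.real (B ∩ P k) := by
    intro k B hB i
    rw [hmass _ ((hD k).inter (hS k hB)) (inter_subset_left.trans (hDsub k)) i, ← hcst,
      ← hSa k B hB]
    congr 1
    field_simp
  have hSa' : ∀ k (B : Set E3), MeasurableSet B →
      ∑ i, Pm.real {ω | pos a b y (c i) ω.1 ∈ D k ∩ S k ⁻¹' B} = N₁ * sig.real (B ∩ P k) := by
    intro k B hB
    rw [sum_fiber (fun i => (c i).1), Finset.sum_congr rfl fun i _ => hfib k B hB i,
      Finset.sum_const, Finset.card_univ, Fintype.card_fin, nsmul_eq_mul]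
    field_simp
  have key := fun pl : Fin M → E3 × ℝ => pointwise h0 h2 (η := η) (ρ := ρ) hη1 hN₁ hn' hY hc hP hD
    hI hS hPd hPs hSm hSd hSa' hIP hρI hQ hu hQd hun hua pl β hβ
  -- the averages
  obtain ⟨δ, hδ, hδx⟩ := exists_sep_fin hY hc
  have hpm : ∀ i, Measurable fun ω : (ℝ × ℝ) × E3 => pos a b y (c i) ω.1 := fun i =>
    (measurable_pos a b y (c i)).comp measurable_fst
  have hSg : ∀ k i, Measurable fun ω : (ℝ × ℝ) × E3 => S k (pos a b y (c i) ω.1) := fun k i =>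
    (hS k).comp (hpm i)
  have hsepk : ∀ k i i', ∀ ω : (ℝ × ℝ) × E3, pos a b y (c i) ω.1 ∈ D k →
      pos a b y (c i') ω.1 ∈ D k → (1 - η) * ‖df a b y (c i) (c i')‖ ≤
        ‖S k (pos a b y (c i) ω.1) - S k (pos a b y (c i') ω.1)‖ := by
    intro k i i' ω h1 h3
    have h4 := hSd k _ h1 _ h3
    rwa [pos_sub] at h4
  have hW : ∀ k, ∀ p ∈ (Finset.univ : Finset (Fin n')).offDiag, _ := fun k p hp =>
    W_avg h0 Pm (fun ω => S k (pos a b y (c p.1) ω.1)) (fun ω => S k (pos a b y (c p.2) ω.1))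
      (hSg k p.1) (hSg k p.2)
      ({ω : (ℝ × ℝ) × E3 | pos a b y (c p.1) ω.1 ∈ D k} ∩
        {ω : (ℝ × ℝ) × E3 | pos a b y (c p.2) ω.1 ∈ D k})
      ((hpm _ (hD k)).inter (hpm _ (hD k)))
      (fun ω hω => ⟨mem_sphere_zero_iff_norm.1 (hPs k (hSm k hω.1)),
        mem_sphere_zero_iff_norm.1 (hPs k (hSm k hω.2))⟩)
      (d := (1 - η) * ‖df a b y (c p.1) (c p.2)‖)
      (mul_pos hb (hδ.trans_le (hδx _ _ (Finset.mem_offDiag.1 hp).2.2)))
      (fun ω hω => hsepk k _ _ ω hω.1 hω.2) M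
  have hU := fun k => U_avg h2 (I k) (hI k) hρ hρ2 M
  have h1 : β = ∫ _pl : Fin M → E3 × ℝ, β ∂(Pl M) := by
    rw [integral_const, probReal_univ, one_smul]
  have hiW : ∀ k, Integrable (fun pl : Fin M → E3 × ℝ =>
      ∑ p ∈ (Finset.univ : Finset (Fin n')).offDiag,
        ∫ ω, ({ω : (ℝ × ℝ) × E3 | pos a b y (c p.1) ω.1 ∈ D k} ∩
            {ω : (ℝ × ℝ) × E3 | pos a b y (c p.2) ω.1 ∈ D k} ∩
          {ω : (ℝ × ℝ) × E3 | Same pl (S k (pos a b y (c p.1) ω.1))
            (S k (pos a b y (c p.2) ω.1))}).indicator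
          (fun ω => K s ‖S k (pos a b y (c p.1) ω.1) - S k (pos a b y (c p.2) ω.1)‖) ω ∂Pm)
      (Pl M) := fun k => integrable_finsetSum _ fun p hp => (hW k p hp).1
  have h3 : β ≤ ∫ pl : Fin M → E3 × ℝ,
      (∑ k, ∑ p ∈ (Finset.univ : Finset (Fin n')).offDiag,
        ∫ ω, ({ω : (ℝ × ℝ) × E3 | pos a b y (c p.1) ω.1 ∈ D k} ∩
            {ω : (ℝ × ℝ) × E3 | pos a b y (c p.2) ω.1 ∈ D k} ∩
          {ω : (ℝ × ℝ) × E3 | Same pl (S k (pos a b y (c p.1) ω.1))
            (S k (pos a b y (c p.2) ω.1))}).indicator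
          (fun ω => K s ‖S k (pos a b y (c p.1) ω.1) - S k (pos a b y (c p.2) ω.1)‖) ω ∂Pm -
      (N₁ : ℝ) ^ 2 * ∑ k, ∫ q, {q : E3 × E3 | q.1 ∈ I k ∧ ‖q.1 - q.2‖ < ρ ∧
        Same pl q.1 q.2}.indicator (fun q => K s ‖q.1 - q.2‖) q ∂(sig.prod sig)) ∂(Pl M) := by
    conv_lhs => rw [h1]
    refine integral_mono (integrable_const _) ?_ key
    exact (integrable_finsetSum _ fun k _ => hiW k).sub
      ((integrable_finsetSum _ fun k _ => (hU k).1).const_mul _)
  rw [integral_sub (integrable_finsetSum _ fun k _ => hiW k)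
      ((integrable_finsetSum _ fun k _ => (hU k).1).const_mul _), integral_const_mul,
    integral_finsetSum _ (fun k _ => hiW k), integral_finsetSum _ (fun k _ => (hU k).1)] at h3
  refine h3.trans (sub_le_sub ?_ (mul_le_mul_of_nonneg_left ?_ (by positivity)))
  · -- the kernel at a difference
    set g : ℝ → ℝ := fun r => K s ((1 - η) * r) * (1 - (1 - η) * r / 4) ^ M with hg
    have hg0 : ∀ r, 0 ≤ r → (1 - η) * r ≤ 2 → 0 ≤ g r := fun r hr hr2 =>
      mul_nonneg (K_nonneg (by positivity)) (pow_nonneg (by linarith) M)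
    set Θ : Fin m → ℝ := fun i => ∑ q ∈ T, if q.1 = i then
      g ‖y q.1 - y q.2.1 + lv a b q.2.2‖ else 0 with hΘ
    have hgT : ∀ q ∈ T, 0 ≤ g ‖y q.1 - y q.2.1 + lv a b q.2.2‖ := fun q hq =>
      hg0 _ (norm_nonneg _) ((hT q).1 hq)
    have hk : ∀ k, ∫ pl : Fin M → E3 × ℝ, ∑ p ∈ (Finset.univ : Finset (Fin n')).offDiag,
        ∫ ω, ({ω : (ℝ × ℝ) × E3 | pos a b y (c p.1) ω.1 ∈ D k} ∩
            {ω : (ℝ × ℝ) × E3 | pos a b y (c p.2) ω.1 ∈ D k} ∩
          {ω : (ℝ × ℝ) × E3 | Same pl (S k (pos a b y (c p.1) ω.1))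
            (S k (pos a b y (c p.2) ω.1))}).indicator
          (fun ω => K s ‖S k (pos a b y (c p.1) ω.1) - S k (pos a b y (c p.2) ω.1)‖) ω ∂Pm
          ∂(Pl M) ≤ N₁ / m * sig.real (P k) * ∑ i, Θ i := by
      intro k
      rw [integral_finsetSum _ (fun p hp => (hW k p hp).1)]
      -- drop the second event
      set π : Fin n' → ℝ := fun i => Pm.real {ω | pos a b y (c i) ω.1 ∈ D k} with hπ
      have step1 : ∀ p ∈ (Finset.univ : Finset (Fin n')).offDiag, _ ≤
          π p.1 * (if (1 - η) * ‖df a b y (c p.1) (c p.2)‖ ≤ 2 then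
            g ‖df a b y (c p.1) (c p.2)‖ else 0) := fun p hp => (hW k p hp).2.trans (by
        by_cases hle : (1 - η) * ‖df a b y (c p.1) (c p.2)‖ ≤ 2
        · rw [if_pos hle]
          exact mul_le_mul_of_nonneg_right (measureReal_mono inter_subset_left)
            (hg0 _ (norm_nonneg _) hle)
        · rw [if_neg hle, mul_zero]
          have hemp : {ω : (ℝ × ℝ) × E3 | pos a b y (c p.1) ω.1 ∈ D k} ∩
              {ω : (ℝ × ℝ) × E3 | pos a b y (c p.2) ω.1 ∈ D k} = ∅ := by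
            ext ω
            simp only [mem_inter_iff, Set.mem_ofPred_eq, mem_empty_iff_false, iff_false, not_and]
            intro hω1 hω2
            refine hle ((hsepk k _ _ ω hω1 hω2).trans ?_)
            have e1 := mem_sphere_zero_iff_norm.1 (hPs k (hSm k hω1))
            have e2 := mem_sphere_zero_iff_norm.1 (hPs k (hSm k hω2))
            calc _ ≤ ‖S k (pos a b y (c p.1) ω.1)‖ + ‖S k (pos a b y (c p.2) ω.1)‖ :=
                  norm_sub_le _ _
              _ = 2 := by rw [e1, e2]; norm_num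
          rw [hemp, measureReal_empty, zero_mul])
      refine (Finset.sum_le_sum step1).trans ?_
      have hinner : ∀ i : Fin n', ∑ j ∈ Finset.univ.erase i,
          (if (1 - η) * ‖df a b y (c i) (c j)‖ ≤ 2 then g ‖df a b y (c i) (c j)‖ else 0) ≤
          Θ (c i).1 := by
        intro i
        rw [hΘ]
        simp only
        rw [← Finset.sum_filter, ← Finset.sum_filter]
        set F : Fin n' → Fin m × Fin m × (ℤ × ℤ) :=
          fun j => ((c i).1, (c j).1, (c i).2 - (c j).2) with hF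
        have hFinj : Function.Injective F := by
          intro j j' hjj
          simp only [hF, Prod.mk.injEq, true_and] at hjj
          exact hc (Prod.ext hjj.1 (sub_right_injective hjj.2))
        have himg : ∀ j ∈ (Finset.univ.erase i).filter
            (fun j => (1 - η) * ‖df a b y (c i) (c j)‖ ≤ 2), F j ∈ T.filter
            (fun q => q.1 = (c i).1) := by
          intro j hj
          rw [Finset.mem_filter] at hj ⊢
          exact ⟨(hT _).2 hj.2, rfl⟩
        calc ∑ j ∈ (Finset.univ.erase i).filter (fun j => (1 - η) * ‖df a b y (c i) (c j)‖ ≤ 2),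
              g ‖df a b y (c i) (c j)‖ =
            ∑ q ∈ ((Finset.univ.erase i).filter
              (fun j => (1 - η) * ‖df a b y (c i) (c j)‖ ≤ 2)).image F,
              g ‖y q.1 - y q.2.1 + lv a b q.2.2‖ := by
              rw [Finset.sum_image (fun _ _ _ _ h => hFinj h)]
              rfl
          _ ≤ _ := by
              refine Finset.sum_le_sum_of_subset_of_nonneg ?_ ?_
              · intro q hq
                obtain ⟨j, hj, rfl⟩ := Finset.mem_image.1 hq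
                exact himg j hj
              · intro q hq _
                exact hgT q (Finset.mem_filter.1 hq).1
      have hoff : ∑ p ∈ (Finset.univ : Finset (Fin n')).offDiag,
          π p.1 * (if (1 - η) * ‖df a b y (c p.1) (c p.2)‖ ≤ 2 then
            g ‖df a b y (c p.1) (c p.2)‖ else 0) =
          ∑ i, π i * ∑ j ∈ Finset.univ.erase i,
          (if (1 - η) * ‖df a b y (c i) (c j)‖ ≤ 2 then g ‖df a b y (c i) (c j)‖ else 0) := by
        simp only [Finset.mul_sum]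
        rw [Finset.sum_sigma']
        refine Finset.sum_bij' (fun p _ => ⟨p.1, p.2⟩) (fun q _ => (q.1, q.2)) ?_ ?_ ?_ ?_ ?_
        · intro p hp
          simp only [Finset.mem_sigma, Finset.mem_univ, Finset.mem_erase, true_and, and_true]
          exact (Finset.mem_offDiag.1 hp).2.2.symm
        · intro q hq
          simp only [Finset.mem_sigma, Finset.mem_univ, Finset.mem_erase, true_and, and_true] at hq
          simp only [Finset.mem_offDiag, Finset.mem_univ, true_and]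
          exact hq.symm
        · intro p _; rfl
        · intro q _; rfl
        · intro p _; rfl
      rw [hoff]
      have hπ0 : ∀ i, 0 ≤ π i := fun i => measureReal_nonneg
      refine (Finset.sum_le_sum fun i _ => mul_le_mul_of_nonneg_left (hinner i) (hπ0 i)).trans ?_
      rw [sum_fiber (fun i => (c i).1), Finset.mul_sum]
      refine Finset.sum_le_sum fun i _ => le_of_eq ?_
      have h5 : ∀ j, (if (c j).1 = i then π j * Θ (c j).1 else 0) =
          (if (c j).1 = i then Pm.real {ω | pos a b y (c j) ω.1 ∈ D k ∩ S k ⁻¹' univ} else 0) *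
            Θ i := by
        intro j
        by_cases hj : (c j).1 = i
        · rw [if_pos hj, if_pos hj, hj, preimage_univ, inter_univ]
        · rw [if_neg hj, if_neg hj, zero_mul]
      rw [Finset.sum_congr rfl fun j _ => h5 j, ← Finset.sum_mul, hfib k univ MeasurableSet.univ i,
        univ_inter]
    refine (Finset.sum_le_sum fun k _ => hk k).trans ?_
    rw [← Finset.sum_mul, ← Finset.mul_sum]
    have h8 : ∑ k, sig.real (P k) ≤ 1 := by
      rw [← measureReal_iUnion_fintype (fun j j' h => hPd j j' h) hP]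
      exact measureReal_le_one
    have hΘsum : ∑ i, Θ i = ∑ q ∈ T, g ‖y q.1 - y q.2.1 + lv a b q.2.2‖ := by
      rw [hΘ, Finset.sum_comm]
      refine Finset.sum_congr rfl fun q _ => ?_
      rw [Finset.sum_ite_eq]
      simp
    rw [hΘsum]
    have h9 : 0 ≤ ∑ q ∈ T, g ‖y q.1 - y q.2.1 + lv a b q.2.2‖ := Finset.sum_nonneg hgT
    refine mul_le_mul_of_nonneg_right ?_ h9
    have h10 : (0 : ℝ) ≤ N₁ / m := by positivity
    nlinarith
  · rw [Finset.sum_congr rfl fun k _ => (hU k).2, ← Finset.sum_mul]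
    refine mul_le_mul_of_nonneg_right hIκ ?_
    refine intervalIntegral.integral_nonneg hρ.le fun r hr => ?_
    refine mul_nonneg (mul_nonneg (K_nonneg hr.1) (pow_nonneg ?_ M)) ?_
    · linarith [hr.2]
    · linarith [hr.1]

end Pool.Agent.Helper42.RZ2
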